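import Mathlib

set_option autoImplicit false

namespace H824GB

open Finset

variable {V : Type*} [NormedAddCommGroup V] [InnerProductSpace ℝ V]

/-- algebraic curvature tensors, as 4-linear functions -/
structure IsAlgCurv (R : V →ₗ[ℝ] V →ₗ[ℝ] V →ₗ[ℝ] V →ₗ[ℝ] ℝ) : Prop where
  antisymm₁ : ∀ x y z w, R x y z w = - R y x z w
  antisymm₂ : ∀ x y z w, R x y z w = - R x y w z
  symm : ∀ x y z w, R x y z w = R z w x y
  bianchi : ∀ x y z w, R x y z w + R y z x w + R z x y w = 0

/-- the Gauss-Bonnet integrand (up to a positive constant) -/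
noncomputable def gbInt (m : ℕ) (R : V →ₗ[ℝ] V →ₗ[ℝ] V →ₗ[ℝ] V →ₗ[ℝ] ℝ)
    (e : Fin m × Fin 2 → V) : ℝ :=
  ∑ σ : Equiv.Perm (Fin m × Fin 2), ∑ τ : Equiv.Perm (Fin m × Fin 2),
    ((Equiv.Perm.sign σ : ℤ) : ℝ) * ((Equiv.Perm.sign τ : ℤ) : ℝ) *
      ∏ i : Fin m, R (e (σ (i, 0))) (e (σ (i, 1))) (e (τ (i, 0))) (e (τ (i, 1)))

/-- multilinear version in two groups of variables -/
noncomputable def prodML (m : ℕ) (R : V →ₗ[ℝ] V →ₗ[ℝ] V →ₗ[ℝ] V →ₗ[ℝ] ℝ)
    (y : Fin m × Fin 2 → V) : MultilinearMap ℝ (fun _ : Fin m × Fin 2 => V) ℝ where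
  toFun x := ∏ i : Fin m, R (x (i, 0)) (x (i, 1)) (y (i, 0)) (y (i, 1))
  map_update_add' := by
    intro dec x p a b
    obtain ⟨i, j⟩ := p
    have hd : dec = instDecidableEqProd := Subsingleton.elim _ _
    subst hd
    have key : ∀ c : V, (∏ k : Fin m, R (Function.update x (i, j) c (k, 0))
        (Function.update x (i, j) c (k, 1)) (y (k, 0)) (y (k, 1))) =
        R (Function.update x (i, j) c (i, 0)) (Function.update x (i, j) c (i, 1))
          (y (i, 0)) (y (i, 1)) * ∏ k ∈ univ.erase i, R (x (k, 0)) (x (k, 1)) (y (k, 0)) (y (k, 1)) := by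
      intro c
      rw [← Finset.mul_prod_erase univ _ (mem_univ i)]
      congr 1
      apply Finset.prod_congr rfl
      intro k hk
      have hki : k ≠ i := (Finset.mem_erase.mp hk).1
      rw [Function.update_of_ne (by simp [hki]), Function.update_of_ne (by simp [hki])]
    rw [key, key, key, ← add_mul]
    congr 1
    fin_cases j <;> simp [Function.update_of_ne]
  map_update_smul' := by
    intro dec x p c a
    obtain ⟨i, j⟩ := p
    have hd : dec = instDecidableEqProd := Subsingleton.elim _ _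
    subst hd
    have key : ∀ c : V, (∏ k : Fin m, R (Function.update x (i, j) c (k, 0))
        (Function.update x (i, j) c (k, 1)) (y (k, 0)) (y (k, 1))) =
        R (Function.update x (i, j) c (i, 0)) (Function.update x (i, j) c (i, 1))
          (y (i, 0)) (y (i, 1)) * ∏ k ∈ univ.erase i, R (x (k, 0)) (x (k, 1)) (y (k, 0)) (y (k, 1)) := by
      intro c
      rw [← Finset.mul_prod_erase univ _ (mem_univ i)]
      congr 1
      apply Finset.prod_congr rfl
      intro k hk
      have hki : k ≠ i := (Finset.mem_erase.mp hk).1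
      rw [Function.update_of_ne (by simp [hki]), Function.update_of_ne (by simp [hki])]
    rw [key, key, smul_eq_mul, ← mul_assoc]
    congr 1
    fin_cases j <;> simp [Function.update_of_ne]

end H824GB
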