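import Pool.Agent.H824R2.GB9

set_option autoImplicit false

namespace H824GB

open Finset Submodule

variable {V : Type*} [NormedAddCommGroup V] [InnerProductSpace ℝ V]

open scoped RealInnerProductSpace

open scoped MatrixOrder in
theorem psd_fact {ι : Type*} [Fintype ι] [DecidableEq ι] (M : Matrix ι ι ℝ) (hM : M.PosSemidef) :
    ∃ B : Matrix ι ι ℝ, ∀ p q, M p q = ∑ k, B k p * B k q := by
  obtain ⟨B, hB⟩ := CStarAlgebra.nonneg_iff_eq_star_mul_self.mp hM.nonneg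
  refine ⟨B, fun p q => ?_⟩
  rw [hB]
  simp [Matrix.mul_apply, Matrix.star_apply]

/-- a positive semidefinite symmetric bilinear form is a sum of squares of linear forms -/
theorem psd_sum_sq {ι : Type*} [Fintype ι] [DecidableEq ι] (b : OrthonormalBasis ι ℝ V)
    (J : V →ₗ[ℝ] V →ₗ[ℝ] ℝ) (hs : ∀ x y, J x y = J y x) (hpos : ∀ x, 0 ≤ J x x) :
    ∃ β : ι → V, ∀ x y, J x y = ∑ k, ⟪β k, x⟫ * ⟪β k, y⟫ := by
  have hJ : ∀ x y, J x y = ∑ p, ∑ q, ⟪b p, x⟫ * (⟪b q, y⟫ * J (b p) (b q)) := by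
    intro x y
    conv_lhs => rw [← b.sum_repr' x, ← b.sum_repr' y]
    simp only [map_sum, LinearMap.sum_apply, map_smul, LinearMap.smul_apply, smul_eq_mul,
      Finset.mul_sum]
    rw [Finset.sum_comm]
    apply Finset.sum_congr rfl; intro p _
    apply Finset.sum_congr rfl; intro q _
    ring
  let M : Matrix ι ι ℝ := Matrix.of (fun p q => J (b p) (b q))
  have hM : M.PosSemidef := by
    refine Matrix.PosSemidef.of_dotProduct_mulVec_nonneg ?_ ?_
    · ext p q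
      simp [M, Matrix.conjTranspose_apply, hs (b q) (b p)]
    · intro c
      have := hpos (∑ p, c p • b p)
      simp only [map_sum, LinearMap.sum_apply, map_smul, LinearMap.smul_apply, smul_eq_mul,
        Finset.mul_sum] at this
      simp only [dotProduct, Matrix.mulVec, M, Matrix.of_apply, Finset.mul_sum, star_trivial]
      rw [Finset.sum_comm]
      refine le_of_le_of_eq this ?_
      apply Finset.sum_congr rfl; intro p _
      apply Finset.sum_congr rfl; intro q _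
      ring
  obtain ⟨B, hB⟩ := psd_fact M hM
  refine ⟨fun k => ∑ p, B k p • b p, ?_⟩
  intro x y
  rw [hJ]
  have hM' : ∀ p q, J (b p) (b q) = ∑ k, B k p * B k q := by
    intro p q
    exact hB p q
  simp only [sum_inner, inner_smul_left, conj_trivial, hM', Finset.mul_sum, Finset.sum_mul]
  calc _ = ∑ p, ∑ q, ∑ k, ⟪b p, x⟫ * (⟪b q, y⟫ * (B k p * B k q)) := rfl
    _ = ∑ q, ∑ p, ∑ k, ⟪b p, x⟫ * (⟪b q, y⟫ * (B k p * B k q)) := Finset.sum_comm
    _ = ∑ q, ∑ k, ∑ p, ⟪b p, x⟫ * (⟪b q, y⟫ * (B k p * B k q)) := by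
      apply Finset.sum_congr rfl; intro q _; exact Finset.sum_comm
    _ = ∑ k, ∑ q, ∑ p, ⟪b p, x⟫ * (⟪b q, y⟫ * (B k p * B k q)) := Finset.sum_comm
    _ = _ := by
      apply Finset.sum_congr rfl; intro k _
      apply Finset.sum_congr rfl; intro q _
      apply Finset.sum_congr rfl; intro p _
      ring

/-- projection along a unit vector -/
noncomputable def prj (f : V) : V →ₗ[ℝ] V where
  toFun x := x - ⟪f, x⟫ • f
  map_add' := by intro x y; rw [inner_add_right, add_smul]; abel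
  map_smul' := by
    intro c x
    simp only [inner_smul_right, RingHom.id_apply, smul_sub, smul_smul]

theorem prj_apply (f x : V) : prj f x = x - ⟪f, x⟫ • f := rfl

theorem prj_orth (f x : V) (hf : ‖f‖ = 1) : ⟪f, prj f x⟫ = 0 := by
  rw [prj_apply, inner_sub_right, inner_smul_right, inner_one_of f hf]; ring

theorem prj_fix (f x : V) (h : ⟪f, x⟫ = 0) : prj f x = x := by
  rw [prj_apply, h, zero_smul, sub_zero]

/-- the condition on a principal vector -/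
def Principal (R : V →ₗ[ℝ] V →ₗ[ℝ] V →ₗ[ℝ] V →ₗ[ℝ] ℝ) (f : V) : Prop :=
  ∀ x y z, ⟪f, x⟫ = 0 → ⟪f, y⟫ = 0 → ⟪f, z⟫ = 0 → R f x y z = 0

theorem peel {ι : Type*} [Fintype ι] [DecidableEq ι] (b : OrthonormalBasis ι ℝ V)
    (R : V →ₗ[ℝ] V →ₗ[ℝ] V →ₗ[ℝ] V →ₗ[ℝ] ℝ) (hR : IsAlgCurv R) (hsec : ∀ x y, 0 ≤ R x y x y)
    (f : V) (hf : ‖f‖ = 1) (hp : Principal R f) :
    ∃ A, DecSOS A ∧ R = A + pull (prj f) R := by
  let J : V →ₗ[ℝ] V →ₗ[ℝ] ℝ := LinearMap.mk₂ ℝ (fun x y => R f x f y)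
    (by intro a b c; simp) (by intro a b c; simp) (by intro a b c; simp) (by intro a b c; simp)
  have hJ : ∀ x y, J x y = R f x f y := fun x y => rfl
  obtain ⟨β, hβ⟩ := psd_sum_sq b J (fun x y => by rw [hJ, hJ]; exact hR.symm _ _ _ _)
    (fun x => hsec f x)
  refine ⟨∑ k, sq f (β k), DecSOS.sum _ _ (fun k _ => DecSOS.sq _ _), ?_⟩
  have hff : ∀ z w, R f f z w = 0 := fun z w => by
    have := hR.antisymm₁ f f z w; linarith
  have hff' : ∀ z w, R z w f f = 0 := fun z w => by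
    have := hR.antisymm₂ z w f f; linarith
  ext x y z w
  simp only [LinearMap.add_apply, LinearMap.sum_apply, sq_apply, pull_apply]
  have hsum : ∑ k, (⟪f, x⟫ * ⟪β k, y⟫ - ⟪f, y⟫ * ⟪β k, x⟫) * (⟪f, z⟫ * ⟪β k, w⟫ - ⟪f, w⟫ * ⟪β k, z⟫)
      = ⟪f, x⟫ * ⟪f, z⟫ * R f y f w - ⟪f, x⟫ * ⟪f, w⟫ * R f y f z - ⟪f, y⟫ * ⟪f, z⟫ * R f x f w +
        ⟪f, y⟫ * ⟪f, w⟫ * R f x f z := by
    rw [← hJ, ← hJ, ← hJ, ← hJ, hβ, hβ, hβ, hβ]
    simp only [Finset.mul_sum, ← Finset.sum_sub_distrib, ← Finset.sum_add_distrib]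
    apply Finset.sum_congr rfl; intro k _
    ring
  rw [hsum]
  have hx : x = prj f x + ⟪f, x⟫ • f := by rw [prj_apply]; abel
  have hy : y = prj f y + ⟪f, y⟫ • f := by rw [prj_apply]; abel
  have hz : z = prj f z + ⟪f, z⟫ • f := by rw [prj_apply]; abel
  have hw : w = prj f w + ⟪f, w⟫ • f := by rw [prj_apply]; abel
  have ox := prj_orth f x hf
  have oy := prj_orth f y hf
  have oz := prj_orth f z hf
  have ow := prj_orth f w hf
  generalize ⟪f, x⟫ = ξ at *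
  generalize ⟪f, y⟫ = η at *
  generalize ⟪f, z⟫ = ζ at *
  generalize ⟪f, w⟫ = ω at *
  generalize prj f x = a at *
  generalize prj f y = c at *
  generalize prj f z = d at *
  generalize prj f w = g at *
  subst hx hy hz hw
  simp only [map_add, map_smul, LinearMap.add_apply, LinearMap.smul_apply, smul_eq_mul]
  have e1 : R f c d g = 0 := hp c d g oy oz ow
  have e2 : R a f d g = 0 := by rw [hR.antisymm₁, hp a d g ox oz ow, neg_zero]
  have e3 : R a c f g = 0 := by rw [hR.symm, hp g a c ow ox oy]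
  have e4 : R a c d f = 0 := by rw [hR.antisymm₂, hR.symm, hp d a c oz ox oy, neg_zero]
  have e5 : R a f f g = - R f a f g := hR.antisymm₁ _ _ _ _
  have e6 : R f c d f = - R f c f d := hR.antisymm₂ _ _ _ _
  have e7 : R a f d f = R f a f d := by rw [hR.antisymm₁, hR.antisymm₂]; ring
  simp only [hff, hff', e1, e2, e3, e4, e5, e6, e7]
  ring

theorem peel_all {ι : Type*} [Fintype ι] [DecidableEq ι] (b : OrthonormalBasis ι ℝ V) :
    ∀ (r : ℕ) (f : Fin r → V) (_ : Orthonormal ℝ f)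
    (R : V →ₗ[ℝ] V →ₗ[ℝ] V →ₗ[ℝ] V →ₗ[ℝ] ℝ) (_ : IsAlgCurv R) (_ : ∀ x y, 0 ≤ R x y x y)
    (_ : ∀ i, Principal R (f i)),
    ∃ A R₁ : V →ₗ[ℝ] V →ₗ[ℝ] V →ₗ[ℝ] V →ₗ[ℝ] ℝ, DecSOS A ∧ IsAlgCurv R₁ ∧ (∀ x y, 0 ≤ R₁ x y x y) ∧
      R = A + R₁ ∧ (∀ i, R₁ (f i) = 0) ∧
      (∀ v, (∀ i, ⟪f i, v⟫ = 0) → R v = 0 → R₁ v = 0) := by
  intro r
  induction r with
  | zero =>
    intro f hf R hR hsec hp
    exact ⟨0, R, DecSOS.zero, hR, hsec, by rw [zero_add], fun i => i.elim0, fun v _ h => h⟩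
  | succ r ih =>
    intro f hf R hR hsec hp
    obtain ⟨A0, hA0, hRA⟩ := peel b R hR hsec (f 0) (hf.1 0) (hp 0)
    have h0 : ∀ i : Fin r, ⟪f 0, f i.succ⟫ = 0 := fun i => hf.2 (Fin.succ_ne_zero i).symm
    have h0' : ∀ i : Fin r, ⟪f i.succ, f 0⟫ = 0 := fun i => hf.2 (Fin.succ_ne_zero i)
    obtain ⟨A, R₁, hA, hR₁, hsec₁, heq, hnull, hker⟩ := ih (fun i => f i.succ)
      (hf.comp _ (Fin.succ_injective r)) (pull (prj (f 0)) R) (pull_alg _ R hR)
      (fun x y => hsec _ _) (by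
        intro i x y z hx hy hz
        rw [pull_apply, prj_fix _ _ (h0 i)]
        have key : ∀ x, ⟪f i.succ, x⟫ = 0 → ⟪f i.succ, prj (f 0) x⟫ = 0 := by
          intro x hx
          rw [prj_apply, inner_sub_right, inner_smul_right, h0' i, hx]; ring
        exact hp i.succ _ _ _ (key x hx) (key y hy) (key z hz))
    refine ⟨A0 + A, R₁, hA0.add hA, hR₁, hsec₁, ?_, ?_, ?_⟩
    · rw [add_assoc, ← heq]; exact hRA
    · intro i
      refine Fin.cases ?_ ?_ i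
      · apply hker
        · intro j; exact h0' j
        · ext y z w
          rw [pull_apply]
          have : prj (f 0) (f 0) = 0 := by
            rw [prj_apply, inner_one_of _ (hf.1 0), one_smul, sub_self]
          rw [this]; simp
      · exact hnull
    · intro v hv hRv
      apply hker
      · intro j; exact hv j.succ
      · ext y z w
        rw [pull_apply, prj_fix _ _ (hv 0), hRv]; simp

/-- the curvature tensor of constant curvature one -/
noncomputable def idT {ι : Type*} [Fintype ι] (b : OrthonormalBasis ι ℝ V) :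
    V →ₗ[ℝ] V →ₗ[ℝ] V →ₗ[ℝ] V →ₗ[ℝ] ℝ := (1/2 : ℝ) • ∑ p : ι × ι, sq (b p.1) (b p.2)

theorem idT_apply {ι : Type*} [Fintype ι] (b : OrthonormalBasis ι ℝ V) (x y z w : V) :
    idT b x y z w = ⟪x, z⟫ * ⟪y, w⟫ - ⟪x, w⟫ * ⟪y, z⟫ := by
  have h : ∀ x y : V, ⟪x, y⟫ = ∑ p, ⟪b p, x⟫ * ⟪b p, y⟫ := by
    intro x y
    rw [← b.sum_inner_mul_inner x y]
    apply Finset.sum_congr rfl; intro p _
    rw [real_inner_comm]
  unfold idT
  simp only [LinearMap.smul_apply, LinearMap.sum_apply, sq_apply, smul_eq_mul]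
  rw [Fintype.sum_prod_type]
  have e1 : ∀ p q : ι, (⟪b p, x⟫ * ⟪b q, y⟫ - ⟪b p, y⟫ * ⟪b q, x⟫) *
      (⟪b p, z⟫ * ⟪b q, w⟫ - ⟪b p, w⟫ * ⟪b q, z⟫) =
      (⟪b p, x⟫ * ⟪b p, z⟫) * (⟪b q, y⟫ * ⟪b q, w⟫) - (⟪b p, x⟫ * ⟪b p, w⟫) * (⟪b q, y⟫ * ⟪b q, z⟫)
      - (⟪b p, y⟫ * ⟪b p, z⟫) * (⟪b q, x⟫ * ⟪b q, w⟫) +
      (⟪b p, y⟫ * ⟪b p, w⟫) * (⟪b q, x⟫ * ⟪b q, z⟫) := by
    intro p q; ring
  simp only [e1, Finset.sum_add_distrib, Finset.sum_sub_distrib, ← Finset.mul_sum,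
    ← Finset.sum_mul, ← h]
  ring

theorem idT_split {m : ℕ} (e : OrthonormalBasis (Fin m × Fin 2) ℝ V) :
    ∃ B, DecSOS B ∧ idT e = B + (1/2 : ℝ) • ∑ i : Fin m, sq (e (i, 0)) (e (i, 1)) := by
  classical
  let em : Fin m ↪ (Fin m × Fin 2) × (Fin m × Fin 2) :=
    ⟨fun i => ((i, 0), (i, 1)), fun i j h => by simpa using congrArg (fun t => t.1.1) h⟩
  let T : Finset ((Fin m × Fin 2) × (Fin m × Fin 2)) := Finset.univ.map em
  refine ⟨(1/2 : ℝ) • ∑ p ∈ Tᶜ, sq (e p.1) (e p.2),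
    DecSOS.smul (DecSOS.sum _ _ (fun _ _ => DecSOS.sq _ _)) _ (by norm_num), ?_⟩
  unfold idT
  rw [← smul_add, ← Finset.sum_add_sum_compl T, add_comm]
  congr 2
  rw [Finset.sum_map]
  rfl

theorem idT_alg {ι : Type*} [Fintype ι] (b : OrthonormalBasis ι ℝ V) : IsAlgCurv (idT b) where
  antisymm₁ := fun x y z w => by rw [idT_apply, idT_apply]; ring
  antisymm₂ := fun x y z w => by rw [idT_apply, idT_apply]; ring
  symm := fun x y z w => by
    rw [idT_apply, idT_apply, real_inner_comm x z, real_inner_comm y w, real_inner_comm x w,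
      real_inner_comm y z]; ring
  bianchi := fun x y z w => by
    rw [idT_apply, idT_apply, idT_apply]
    rw [real_inner_comm z y, real_inner_comm z x, real_inner_comm y x]
    ring

end H824GB
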