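import Pool.Agent.H824R2.GB10

set_option autoImplicit false

namespace H824GB

open Finset Submodule

variable {V : Type*} [NormedAddCommGroup V] [InnerProductSpace ℝ V]

open scoped RealInnerProductSpace

/-- effect of adding one square, for all symmetric tensors simultaneously -/
theorem sq_step (u v : V) (m : ℕ) (e : Fin (m+1) × Fin 2 → V) (he : Orthonormal ℝ e) :
    ∃ (e' : Fin m × Fin 2 → V) (κ : ℝ), Orthonormal ℝ e' ∧ 0 ≤ κ ∧
      ∀ T : V →ₗ[ℝ] V →ₗ[ℝ] V →ₗ[ℝ] V →ₗ[ℝ] ℝ, (∀ x y z w, T x y z w = T z w x y) →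
        gbInt (m+1) (T + sq u v) e = gbInt (m+1) T e + κ * gbInt m T e' := by
  classical
  let W := span ℝ (Set.range e)
  let Pu : V := ∑ p, ⟪e p, u⟫ • e p
  let Pv : V := ∑ p, ⟪e p, v⟫ • e p
  have hPu : ∀ z ∈ W, ⟪u, z⟫ = ⟪Pu, z⟫ := fun z hz => (proj_inner e he u z hz).symm
  have hPv : ∀ z ∈ W, ⟪v, z⟫ = ⟪Pv, z⟫ := fun z hz => (proj_inner e he v z hz).symm
  have hPuW : Pu ∈ W := sum_mem (fun p _ => smul_mem _ _ (subset_span ⟨p, rfl⟩))
  have hPvW : Pv ∈ W := sum_mem (fun p _ => smul_mem _ _ (subset_span ⟨p, rfl⟩))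
  have hsub : ∀ e0 : Fin (m+1) × Fin 2 → V, Orthonormal ℝ e0 →
      Orthonormal ℝ (fun p : Fin m × Fin 2 => e0 (p.1.succ, p.2)) := by
    intro e0 he0
    apply he0.comp
    intro p q hpq
    simp only [Prod.mk.injEq, Fin.succ_inj] at hpq
    exact Prod.ext hpq.1 hpq.2
  have hdeg : (∀ z ∈ W, ∀ w ∈ W, ⟪u, z⟫ * ⟪v, w⟫ - ⟪u, w⟫ * ⟪v, z⟫ = 0) →
      ∃ (e' : Fin m × Fin 2 → V) (κ : ℝ), Orthonormal ℝ e' ∧ 0 ≤ κ ∧
      ∀ T : V →ₗ[ℝ] V →ₗ[ℝ] V →ₗ[ℝ] V →ₗ[ℝ] ℝ, (∀ x y z w, T x y z w = T z w x y) →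
        gbInt (m+1) (T + sq u v) e = gbInt (m+1) T e + κ * gbInt m T e' := by
    intro h
    refine ⟨fun p => e (p.1.succ, p.2), 0, hsub e he, le_refl _, ?_⟩
    intro T _
    rw [zero_mul, add_zero]
    unfold gbInt
    apply Finset.sum_congr rfl; intro σ _
    apply Finset.sum_congr rfl; intro τ _
    congr 1
    apply Finset.prod_congr rfl; intro i _
    simp only [LinearMap.add_apply, sq_apply]
    rw [h _ (subset_span ⟨_, rfl⟩) _ (subset_span ⟨_, rfl⟩)]
    ring
  rcases gs_two Pu Pv with ⟨a, ha⟩ | ⟨a, ha⟩ | ⟨x', y', a, b, c, hx', hy', hxy', hu, hv, hxm, hym⟩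
  · apply hdeg
    intro z hz w hw
    rw [hPu z hz, hPu w hw, hPv z hz, hPv w hw, ha, inner_smul_left, inner_smul_left]
    simp; ring
  · apply hdeg
    intro z hz w hw
    rw [hPu z hz, hPu w hw, hPv z hz, hPv w hw, ha, inner_smul_left, inner_smul_left]
    simp; ring
  · have hspW : span ℝ {Pu, Pv} ≤ W := by
      rw [span_le]
      intro z hz
      rcases hz with rfl | hz
      · exact hPuW
      · rw [Set.mem_singleton_iff] at hz; rw [hz]; exact hPvW
    have hx'W : x' ∈ W := hspW hxm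
    have hy'W : y' ∈ W := hspW hym
    have hyx' : ⟪y', x'⟫ = 0 := by rw [real_inner_comm]; exact hxy'
    obtain ⟨e', he', hsp, hev⟩ := fam_extend e he {((0,0) : Fin (m+1) × Fin 2), (0,1)}
      (fun p => if p = (0,0) then x' else y')
      (by
        intro i _
        split_ifs
        · exact hx'W
        · exact hy'W)
      (by
        intro i _
        split_ifs
        · exact hx'
        · exact hy')
      (by
        intro i hi j hj hij
        simp only [Set.mem_insert_iff, Set.mem_singleton_iff] at hi hj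
        rcases hi with rfl | rfl <;> rcases hj with rfl | rfl
        · exact absurd rfl hij
        · simp [hxy']
        · simp [hyx']
        · exact absurd rfl hij)
    have h0 : e' (0,0) = x' := by rw [hev _ (by simp)]; simp
    have h1 : e' (0,1) = y' := by rw [hev _ (by simp)]; simp
    have hon := orthonormal_iff_ite.mp he'
    have hph : ∀ p q, ⟪u, e' p⟫ * ⟪v, e' q⟫ - ⟪u, e' q⟫ * ⟪v, e' p⟫ = (a * c) * om m p q := by
      intro p q
      rw [hPu _ (hsp p), hPu _ (hsp q), hPv _ (hsp p), hPv _ (hsp q), hu, hv]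
      simp only [inner_add_left, inner_smul_left, conj_trivial]
      rw [← h0, ← h1, hon, hon, hon, hon]
      unfold om
      have hne : ((0,1) : Fin (m+1) × Fin 2) ≠ (0,0) := by simp
      by_cases hp0 : (0,0) = p
      · subst hp0
        by_cases hq0 : (0,0) = q
        · subst hq0; simp
        · by_cases hq1 : (0,1) = q
          · subst hq1; simp
          · have hq0' : ¬ q = (0,0) := fun h => hq0 h.symm
            have hq1' : ¬ q = (0,1) := fun h => hq1 h.symm
            simp [hq0, hq1, hq0', hq1']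
      · have hp0' : ¬ p = (0,0) := fun h => hp0 h.symm
        by_cases hp1 : (0,1) = p
        · subst hp1
          by_cases hq0 : (0,0) = q
          · subst hq0; simp
          · have hq0' : ¬ q = (0,0) := fun h => hq0 h.symm
            simp [hq0, hq0']
        · have hp1' : ¬ p = (0,1) := fun h => hp1 h.symm
          simp [hp0, hp1, hp0', hp1']
    refine ⟨fun p => e' (p.1.succ, p.2), 4 * ((m : ℝ) + 1) * ((a * c) * (a * c)), hsub e' he', ?_, ?_⟩
    · have := mul_self_nonneg (a * c)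
      positivity
    intro T hT
    have hT' : ∀ x y z w, (T + sq u v) x y z w = (T + sq u v) z w x y := by
      intro x y z w
      simp only [LinearMap.add_apply]
      rw [hT x y z w, (sq_alg u v).symm x y z w]
    rw [fam_indep _ _ hT' e e' he he' hsp, fam_indep _ _ hT e e' he he' hsp]
    exact gb_add m (T + sq u v) T e' ((a * c) * (a * c)) (by
      intro p q r s
      simp only [LinearMap.add_apply, sq_apply]
      rw [hph, hph]
      ring)

theorem DecSOS.symm4 {A : V →ₗ[ℝ] V →ₗ[ℝ] V →ₗ[ℝ] V →ₗ[ℝ] ℝ} (hA : DecSOS A) :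
    ∀ x y z w, A x y z w = A z w x y := by
  induction hA with
  | zero => intros; simp
  | add_sq B u v _ ih =>
    intro x y z w
    simp only [LinearMap.add_apply]
    rw [ih x y z w, (sq_alg u v).symm x y z w]

theorem gbInt_of_zero (m : ℕ) (e : Fin (m+1) × Fin 2 → V) :
    gbInt (m+1) (0 : V →ₗ[ℝ] V →ₗ[ℝ] V →ₗ[ℝ] V →ₗ[ℝ] ℝ) e = 0 := by
  unfold gbInt
  apply Finset.sum_eq_zero; intro σ _
  apply Finset.sum_eq_zero; intro τ _
  simp

theorem gbInt_smul (m : ℕ) (c : ℝ) (R : V →ₗ[ℝ] V →ₗ[ℝ] V →ₗ[ℝ] V →ₗ[ℝ] ℝ)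
    (e : Fin m × Fin 2 → V) : gbInt m (c • R) e = c^m * gbInt m R e := by
  unfold gbInt
  rw [Finset.mul_sum]
  apply Finset.sum_congr rfl; intro σ _
  rw [Finset.mul_sum]
  apply Finset.sum_congr rfl; intro τ _
  simp only [LinearMap.smul_apply, smul_eq_mul, Finset.prod_mul_distrib, Finset.prod_const,
    Finset.card_univ, Fintype.card_fin]
  ring

/-- removing the small summand does not increase the integrand -/
theorem mono_small [FiniteDimensional ℝ V] (R : V →ₗ[ℝ] V →ₗ[ℝ] V →ₗ[ℝ] V →ₗ[ℝ] ℝ) (hR : Small R)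
    (A : V →ₗ[ℝ] V →ₗ[ℝ] V →ₗ[ℝ] V →ₗ[ℝ] ℝ) (hA : DecSOS A) :
    ∀ (m : ℕ) (e : Fin m × Fin 2 → V), Orthonormal ℝ e → gbInt m A e ≤ gbInt m (A + R) e := by
  induction hA with
  | zero =>
    intro m e he
    match m, e, he with
    | 0, e, he => rw [gbInt_zero', gbInt_zero']
    | (m+1), e, he =>
      rw [zero_add, gbInt_of_zero]
      exact base_case R hR (m+1) e he
  | add_sq A u v hA' ih =>
    intro m e he
    match m, e, he with
    | 0, e, he => rw [gbInt_zero', gbInt_zero']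
    | (m+1), e, he =>
      obtain ⟨e', κ, he', hκ, hT⟩ := sq_step u v m e he
      have h1 := hT A hA'.symm4
      have h2 := hT (A + R) (fun x y z w => by
        simp only [LinearMap.add_apply]; rw [hA'.symm4 x y z w, hR.1.symm x y z w])
      have e1 : A + sq u v + R = A + R + sq u v := by abel
      rw [e1, h1, h2]
      have i1 := ih (m+1) e he
      have i2 := mul_le_mul_of_nonneg_left (ih m e' he') hκ
      linarith

/-- adding decomposable squares does not decrease the integrand -/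
theorem mono_sq [FiniteDimensional ℝ V] (A B : V →ₗ[ℝ] V →ₗ[ℝ] V →ₗ[ℝ] V →ₗ[ℝ] ℝ)
    (hA : DecSOS A) (hB : DecSOS B) (R : V →ₗ[ℝ] V →ₗ[ℝ] V →ₗ[ℝ] V →ₗ[ℝ] ℝ) (hR : Small R) :
    ∀ (m : ℕ) (e : Fin m × Fin 2 → V), Orthonormal ℝ e →
      gbInt m (A + R) e ≤ gbInt m (A + B + R) e := by
  induction hB with
  | zero => intro m e he; rw [add_zero]
  | add_sq B u v hB' ih =>
    intro m e he
    match m, e, he with
    | 0, e, he => rw [gbInt_zero', gbInt_zero']
    | (m+1), e, he =>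
      obtain ⟨e', κ, he', hκ, hT⟩ := sq_step u v m e he
      have h2 := hT (A + B + R) (fun x y z w => by
        simp only [LinearMap.add_apply]
        rw [hA.symm4 x y z w, hB'.symm4 x y z w, hR.1.symm x y z w])
      have e1 : A + (B + sq u v) + R = A + B + R + sq u v := by abel
      rw [e1, h2]
      have i1 := ih (m+1) e he
      have i2 := mul_nonneg hκ (main_nonneg (A + B) (hA.add hB') R hR m e' he')
      linarith

theorem small_zero [FiniteDimensional ℝ V] :
    Small (0 : V →ₗ[ℝ] V →ₗ[ℝ] V →ₗ[ℝ] V →ₗ[ℝ] ℝ) := by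
  refine ⟨⟨by simp, by simp, by simp, by simp⟩, by simp, ⊤, ?_, by simp⟩
  rw [finrank_top]; omega

theorem idT_dec {ι : Type*} [Fintype ι] (b : OrthonormalBasis ι ℝ V) : DecSOS (idT b) :=
  DecSOS.smul (DecSOS.sum _ _ (fun _ _ => DecSOS.sq _ _)) _ (by norm_num)

theorem idT_pos [FiniteDimensional ℝ V] {m : ℕ} (e : OrthonormalBasis (Fin m × Fin 2) ℝ V) :
    0 < gbInt m (idT e) e := by
  obtain ⟨B, hB, h⟩ := idT_split e
  have := main_strict (0 : V →ₗ[ℝ] V →ₗ[ℝ] V →ₗ[ℝ] V →ₗ[ℝ] ℝ) small_zero (1/2) (by norm_num) m B hB e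
    e.orthonormal
  rw [add_zero, ← h] at this
  exact this

/-- quantitative theorem -/
theorem quant [FiniteDimensional ℝ V] {m : ℕ} (e : OrthonormalBasis (Fin m × Fin 2) ℝ V)
    (A : V →ₗ[ℝ] V →ₗ[ℝ] V →ₗ[ℝ] V →ₗ[ℝ] ℝ) (hA : DecSOS A)
    (R : V →ₗ[ℝ] V →ₗ[ℝ] V →ₗ[ℝ] V →ₗ[ℝ] ℝ) (hR : Small R) (δ : ℝ) (hδ : 0 ≤ δ) :
    δ^m * gbInt m (idT e) e ≤ gbInt m (A + δ • idT e + R) e := by
  have hd : DecSOS (δ • idT e) := (idT_dec e).smul δ hδ
  have h1 := mono_small R hR (δ • idT e + A) (hd.add hA) m e e.orthonormal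
  have h2 := mono_sq (δ • idT e) A hd hA 0 small_zero m e e.orthonormal
  rw [add_zero, add_zero] at h2
  rw [gbInt_smul] at h2
  have e1 : A + δ • idT e + R = δ • idT e + A + R := by abel
  rw [e1]
  linarith

end H824GB
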