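import Pool.Agent.H824R2.GB11

set_option autoImplicit false

namespace H824GB

open Finset Submodule

variable {V : Type*} [NormedAddCommGroup V] [InnerProductSpace ℝ V]

open scoped RealInnerProductSpace

theorem sec_of_orth (R : V →ₗ[ℝ] V →ₗ[ℝ] V →ₗ[ℝ] V →ₗ[ℝ] ℝ) (hR : IsAlgCurv R)
    (h : ∀ x y : V, ‖x‖ = 1 → ‖y‖ = 1 → ⟪x, y⟫ = 0 → 0 ≤ R x y x y) (x y : V) :
    0 ≤ R x y x y := by
  have h0 : ∀ x z w, R x x z w = 0 := fun x z w => by
    have := hR.antisymm₁ x x z w; linarith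
  rcases gs_two x y with ⟨a, ha⟩ | ⟨a, ha⟩ | ⟨x', y', a, b, c, hx', hy', hxy', hx, hy, _, _⟩
  · subst ha
    simp only [map_smul, LinearMap.smul_apply, smul_eq_mul, h0, mul_zero]
    exact le_refl _
  · subst ha
    simp only [map_smul, LinearMap.smul_apply, smul_eq_mul, h0, mul_zero]
    exact le_refl _
  · subst hx hy
    have h1 : ∀ x z w, R z w x x = 0 := fun x z w => by
      have := hR.antisymm₂ z w x x; linarith
    simp only [map_add, map_smul, LinearMap.add_apply, LinearMap.smul_apply, smul_eq_mul, h0, h1]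
    have h2 := h x' y' hx' hy' hxy'
    have : a * (b * 0 + c * (a * (b * 0 + c * R x' y' x' y'))) = (a * c)^2 * R x' y' x' y' := by ring
    have h3 : 0 ≤ (a * c)^2 * R x' y' x' y' := by positivity
    linarith

theorem sub_alg (R S : V →ₗ[ℝ] V →ₗ[ℝ] V →ₗ[ℝ] V →ₗ[ℝ] ℝ) (hR : IsAlgCurv R) (hS : IsAlgCurv S)
    (δ : ℝ) : IsAlgCurv (R + (-δ) • S) where
  antisymm₁ := fun x y z w => by
    simp only [LinearMap.add_apply, LinearMap.smul_apply, smul_eq_mul]
    rw [hR.antisymm₁ x y z w, hS.antisymm₁ x y z w]; ring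
  antisymm₂ := fun x y z w => by
    simp only [LinearMap.add_apply, LinearMap.smul_apply, smul_eq_mul]
    rw [hR.antisymm₂ x y z w, hS.antisymm₂ x y z w]; ring
  symm := fun x y z w => by
    simp only [LinearMap.add_apply, LinearMap.smul_apply, smul_eq_mul]
    rw [hR.symm x y z w, hS.symm x y z w]
  bianchi := fun x y z w => by
    simp only [LinearMap.add_apply, LinearMap.smul_apply, smul_eq_mul]
    linear_combination hR.bianchi x y z w - δ * hS.bianchi x y z w

/-- a tensor with sectional curvature at least `δ` and many principal vectors -/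
theorem principal_quant {m : ℕ} (e : OrthonormalBasis (Fin m × Fin 2) ℝ V)
    (A : V →ₗ[ℝ] V →ₗ[ℝ] V →ₗ[ℝ] V →ₗ[ℝ] ℝ) (hA : DecSOS A)
    (R : V →ₗ[ℝ] V →ₗ[ℝ] V →ₗ[ℝ] V →ₗ[ℝ] ℝ) (hR : IsAlgCurv R)
    (r : ℕ) (f : Fin r → V) (hf : Orthonormal ℝ f) (hp : ∀ i, Principal R (f i))
    (hr : 2 * m ≤ r + 5) (δ : ℝ) (hδ : 0 ≤ δ)
    (hsec : ∀ x y : V, ‖x‖ = 1 → ‖y‖ = 1 → ⟪x, y⟫ = 0 → δ ≤ R x y x y) :
    δ^m * gbInt m (idT e) e ≤ gbInt m (A + R) e := by
  classical
  have hfd : FiniteDimensional ℝ V := e.toBasis.finiteDimensional_of_finite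
  have hcard : Module.finrank ℝ V = Fintype.card (Fin m × Fin 2) :=
    Module.finrank_eq_card_basis e.toBasis
  have hc : Fintype.card (Fin m × Fin 2) = 2 * m := by
    simp [Fintype.card_prod]; ring
  let S := R + (-δ) • idT e
  have hS : IsAlgCurv S := sub_alg R (idT e) hR (idT_alg e) δ
  have hSsec : ∀ x y, 0 ≤ S x y x y := by
    apply sec_of_orth S hS
    intro x y hx hy hxy
    simp only [S, LinearMap.add_apply, LinearMap.smul_apply, smul_eq_mul, idT_apply]
    have hyx : ⟪y, x⟫ = 0 := by rw [real_inner_comm]; exact hxy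
    rw [inner_one_of x hx, inner_one_of y hy, hxy, hyx]
    have := hsec x y hx hy hxy
    linarith
  have hSp : ∀ i, Principal S (f i) := by
    intro i x y z hx hy hz
    simp only [S, LinearMap.add_apply, LinearMap.smul_apply, smul_eq_mul, idT_apply]
    rw [hp i x y z hx hy hz, hy, hz]; ring
  obtain ⟨B, R₁, hB, hR₁, hsec₁, heq, hnull, _⟩ := peel_all e r f hf S hS hSsec hSp
  have hsmall : Small R₁ := by
    refine ⟨hR₁, hsec₁, span ℝ (Set.range f), ?_, ?_⟩
    · rw [finrank_span_eq_card hf.linearIndependent, hcard, hc, Fintype.card_fin]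
      exact hr
    · intro x hx
      induction hx using span_induction with
      | mem x h => obtain ⟨q, rfl⟩ := h; exact hnull q
      | zero => simp
      | add x y _ _ hx hy => rw [map_add, hx, hy, add_zero]
      | smul a x _ hx => rw [map_smul, hx, smul_zero]
  have h := quant e (A + B) (hA.add hB) R₁ hsmall δ hδ
  have e1 : A + B + δ • idT e + R₁ = A + R := by
    have h3 : S + δ • idT e = R := by
      simp only [S]
      rw [add_assoc, ← add_smul, neg_add_cancel, zero_smul, add_zero]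
    rw [← h3, heq]; abel
  rwa [e1] at h

theorem principal_strict {m : ℕ} (e : OrthonormalBasis (Fin m × Fin 2) ℝ V)
    (A : V →ₗ[ℝ] V →ₗ[ℝ] V →ₗ[ℝ] V →ₗ[ℝ] ℝ) (hA : DecSOS A)
    (R : V →ₗ[ℝ] V →ₗ[ℝ] V →ₗ[ℝ] V →ₗ[ℝ] ℝ) (hR : IsAlgCurv R)
    (r : ℕ) (f : Fin r → V) (hf : Orthonormal ℝ f) (hp : ∀ i, Principal R (f i))
    (hr : 2 * m ≤ r + 5)
    (hsec : ∀ x y : V, ‖x‖ = 1 → ‖y‖ = 1 → ⟪x, y⟫ = 0 → 0 < R x y x y) :
    0 < gbInt m (A + R) e := by
  match m, e, hr with
  | 0, e, hr => rw [gbInt_zero']; norm_num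
  | (m+1), e, hr =>
    have hfd : FiniteDimensional ℝ V := e.toBasis.finiteDimensional_of_finite
    obtain ⟨x, y, hx, hy, hxy, hmax⟩ := max_pair e ((-1 : ℝ) • R) (e (0,0)) (e (0,1)) (e.orthonormal.1 _)
      (e.orthonormal.1 _) (e.orthonormal.2 (by simp))
    have h := principal_quant e A hA R hR r f hf hp hr (R x y x y) (hsec x y hx hy hxy).le (by
      intro x' y' hx' hy' hxy'
      have := hmax x' y' hx' hy' hxy'
      simp only [LinearMap.smul_apply, smul_eq_mul] at this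
      linarith)
    have h1 := idT_pos e
    have h2 : 0 < (R x y x y)^(m+1) := pow_pos (hsec x y hx hy hxy) _
    have h3 := mul_pos h2 h1
    linarith

end H824GB
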