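import Pool.Agent.H824R2.GB

set_option autoImplicit false

namespace H824GB

open Finset

variable {V : Type*} [NormedAddCommGroup V] [InnerProductSpace ℝ V]

noncomputable def G (m : ℕ) (R : V →ₗ[ℝ] V →ₗ[ℝ] V →ₗ[ℝ] V →ₗ[ℝ] ℝ)
    (x y : Fin m × Fin 2 → V) : ℝ :=
  ∑ σ : Equiv.Perm (Fin m × Fin 2), ∑ τ : Equiv.Perm (Fin m × Fin 2),
    ((Equiv.Perm.sign σ : ℤ) : ℝ) * ((Equiv.Perm.sign τ : ℤ) : ℝ) *
      ∏ i : Fin m, R (x (σ (i, 0))) (x (σ (i, 1))) (y (τ (i, 0))) (y (τ (i, 1)))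

noncomputable def altG (m : ℕ) (R : V →ₗ[ℝ] V →ₗ[ℝ] V →ₗ[ℝ] V →ₗ[ℝ] ℝ)
    (y : Fin m × Fin 2 → V) : V [⋀^(Fin m × Fin 2)]→ₗ[ℝ] ℝ :=
  ∑ τ : Equiv.Perm (Fin m × Fin 2), ((Equiv.Perm.sign τ : ℤ) : ℝ) •
    MultilinearMap.alternatization (prodML m R (fun p => y (τ p)))

theorem alt_sum_apply {ι κ : Type*} (s : Finset κ) (f : κ → V [⋀^ι]→ₗ[ℝ] ℝ) (x : ι → V) :
    (∑ k ∈ s, f k) x = ∑ k ∈ s, f k x := by
  classical
  induction s using Finset.induction_on with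
  | empty => simp
  | insert a s ha ih => rw [Finset.sum_insert ha, Finset.sum_insert ha, AlternatingMap.add_apply, ih]

theorem altG_apply (m : ℕ) (R : V →ₗ[ℝ] V →ₗ[ℝ] V →ₗ[ℝ] V →ₗ[ℝ] ℝ)
    (x y : Fin m × Fin 2 → V) : altG m R y x = G m R x y := by
  unfold altG G
  rw [alt_sum_apply, Finset.sum_comm]
  apply Finset.sum_congr rfl
  intro τ _
  rw [AlternatingMap.smul_apply, MultilinearMap.alternatization_apply, smul_eq_mul, Finset.mul_sum]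
  apply Finset.sum_congr rfl
  intro σ _
  simp only [MultilinearMap.domDomCongr_apply, Units.smul_def, zsmul_eq_mul]
  simp only [prodML, MultilinearMap.coe_mk]
  ring

theorem G_symm (m : ℕ) {R : V →ₗ[ℝ] V →ₗ[ℝ] V →ₗ[ℝ] V →ₗ[ℝ] ℝ}
    (hR : ∀ x y z w, R x y z w = R z w x y)
    (x y : Fin m × Fin 2 → V) : G m R x y = G m R y x := by
  unfold G
  rw [Finset.sum_comm]
  apply Finset.sum_congr rfl
  intro τ _
  apply Finset.sum_congr rfl
  intro σ _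
  rw [mul_comm (((Equiv.Perm.sign σ : ℤ) : ℝ))]
  congr 1
  apply Finset.prod_congr rfl
  intro i _
  exact hR _ _ _ _

theorem gbInt_eq_G (m : ℕ) (R : V →ₗ[ℝ] V →ₗ[ℝ] V →ₗ[ℝ] V →ₗ[ℝ] ℝ)
    (e : Fin m × Fin 2 → V) : gbInt m R e = G m R e e := rfl

/-- independence of the orthonormal basis -/
theorem gbInt_basis_indep (m : ℕ) {R : V →ₗ[ℝ] V →ₗ[ℝ] V →ₗ[ℝ] V →ₗ[ℝ] ℝ}
    (hR : ∀ x y z w, R x y z w = R z w x y)
    (b b' : OrthonormalBasis (Fin m × Fin 2) ℝ V) :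
    gbInt m R b = gbInt m R b' := by
  rw [gbInt_eq_G, gbInt_eq_G]
  have key : ∀ y : Fin m × Fin 2 → V, G m R b' y = G m R b y * b.toBasis.det b' := by
    intro y
    rw [← altG_apply, ← altG_apply]
    conv_lhs => rw [AlternatingMap.eq_smul_basis_det b.toBasis (altG m R y)]
    simp
  have hd : b.toBasis.det b' * b.toBasis.det b' = 1 := by
    rcases b.det_to_matrix_orthonormalBasis_real b' with h | h <;> rw [h] <;> norm_num
  rw [key b', G_symm m hR b b', key b, mul_assoc, hd, mul_one]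

end H824GB
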