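import Pool.Agent.H824R2.GB2

set_option autoImplicit false

namespace H824GB

open Finset

variable {V : Type*} [NormedAddCommGroup V] [InnerProductSpace ℝ V]

theorem sum_comp_inj {ι κ : Type*} [Fintype ι] [Fintype κ] (e : ι → κ) (he : Function.Injective e)
    (g : κ → ℝ) (h : ∀ k, k ∉ Set.range e → g k = 0) : ∑ k, g k = ∑ i, g (e i) := by
  classical
  rw [← Finset.sum_image (f := g) (s := univ) (g := e) (fun a _ b _ hab => he hab)]
  symm
  apply Finset.sum_subset (Finset.subset_univ _)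
  intro k _ hk
  apply h
  intro ⟨i, hi⟩
  exact hk (Finset.mem_image.mpr ⟨i, mem_univ _, hi⟩)

theorem prod_add_orth {ι : Type*} [DecidableEq ι] (s : Finset ι) (a b : ι → ℝ)
    (h : ∀ i j, i ≠ j → b i * b j = 0) :
    ∏ i ∈ s, (a i + b i) = ∏ i ∈ s, a i + ∑ i ∈ s, b i * ∏ k ∈ s.erase i, a k := by
  induction s using Finset.induction_on with
  | empty => simp
  | insert j s hj ih =>
    rw [Finset.prod_insert hj, ih, Finset.prod_insert hj, Finset.sum_insert hj,
      Finset.erase_insert hj]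
    have h1 : ∑ i ∈ s, b i * ∏ k ∈ (insert j s).erase i, a k
        = a j * ∑ i ∈ s, b i * ∏ k ∈ s.erase i, a k := by
      rw [Finset.mul_sum]
      apply Finset.sum_congr rfl
      intro i hi
      have hij : i ≠ j := fun h => hj (h ▸ hi)
      rw [Finset.erase_insert_of_ne (Ne.symm hij), Finset.prod_insert]
      · ring
      · intro h'; exact hj (Finset.mem_of_mem_erase h')
    have h2 : b j * ∑ i ∈ s, b i * ∏ k ∈ s.erase i, a k = 0 := by
      rw [Finset.mul_sum]
      apply Finset.sum_eq_zero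
      intro i hi
      have hij : i ≠ j := fun h => hj (h ▸ hi)
      rw [← mul_assoc, h j i (Ne.symm hij), zero_mul]
    rw [h1]
    ring_nf
    ring_nf at h2
    linarith

/-- the index equivalence -/
def shiftE (m : ℕ) : Fin m × Fin 2 ≃ {q : Fin (m+1) × Fin 2 // q.1 ≠ 0} where
  toFun p := ⟨(p.1.succ, p.2), Fin.succ_ne_zero _⟩
  invFun q := (q.1.1.pred q.2, q.1.2)
  left_inv p := by simp
  right_inv q := by
    obtain ⟨⟨i, j⟩, h⟩ := q
    simp

/-- extension of a permutation -/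
def ext (m : ℕ) (s : Equiv.Perm (Fin m × Fin 2)) : Equiv.Perm (Fin (m+1) × Fin 2) :=
  s.extendDomain (shiftE m)

theorem ext_sign (m : ℕ) (s : Equiv.Perm (Fin m × Fin 2)) :
    Equiv.Perm.sign (ext m s) = Equiv.Perm.sign s := Equiv.Perm.sign_extendDomain _ _

theorem ext_succ (m : ℕ) (s : Equiv.Perm (Fin m × Fin 2)) (k : Fin m) (j : Fin 2) :
    ext m s (k.succ, j) = ((s (k, j)).1.succ, (s (k, j)).2) := by
  have := Equiv.Perm.extendDomain_apply_image s (shiftE m) (k, j)
  exact this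

theorem ext_zero (m : ℕ) (s : Equiv.Perm (Fin m × Fin 2)) (j : Fin 2) :
    ext m s (0, j) = (0, j) := by
  apply Equiv.Perm.extendDomain_apply_not_subtype
  simp

/-- the swap of (0,0),(0,1) -/
def sw (m : ℕ) : Equiv.Perm (Fin (m+1) × Fin 2) := Equiv.swap (0,0) (0,1)

theorem sw_sign (m : ℕ) : Equiv.Perm.sign (sw m) = -1 := by
  unfold sw
  apply Equiv.Perm.sign_swap
  simp

theorem sw_succ (m : ℕ) (k : Fin m) (j : Fin 2) : sw m (k.succ, j) = (k.succ, j) := by
  unfold sw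
  apply Equiv.swap_apply_of_ne_of_ne
  · simp
  · simp

theorem sw_00 (m : ℕ) : sw m (0,0) = (0,1) := by
  unfold sw; simp

theorem sw_01 (m : ℕ) : sw m (0,1) = (0,0) := by
  unfold sw; simp

theorem ext_inj (m : ℕ) : Function.Injective (ext m) := by
  intro s t h
  ext1 p
  obtain ⟨k, j⟩ := p
  have h1 := congrArg (fun f => f (k.succ, j)) h
  simp only [ext_succ] at h1
  have h2 := (Prod.mk.injEq _ _ _ _).mp h1
  exact Prod.ext (Fin.succ_injective _ h2.1) h2.2

/-- surjectivity on permutations fixing (0,0),(0,1) -/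
theorem ext_surj (m : ℕ) (σ : Equiv.Perm (Fin (m+1) × Fin 2)) (h0 : σ (0,0) = (0,0))
    (h1 : σ (0,1) = (0,1)) : ∃ s, ext m s = σ := by
  have hp : ∀ x, (σ x).1 ≠ 0 ↔ x.1 ≠ 0 := by
    intro x
    constructor
    · intro hx h
      apply hx
      obtain ⟨a, b⟩ := x
      simp only at h
      subst h
      fin_cases b
      · simp [h0]
      · simp [h1]
    · intro hx h
      apply hx
      have : σ x = (0, 0) ∨ σ x = (0, 1) := by
        rcases hσ : σ x with ⟨a, b⟩
        rw [hσ] at h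
        simp only at h
        subst h
        fin_cases b
        · left; rfl
        · right; rfl
      rcases this with h' | h'
      · rw [← h0] at h'
        rw [σ.injective h']
      · rw [← h1] at h'
        rw [σ.injective h']
  let s' : Equiv.Perm {q : Fin (m+1) × Fin 2 // q.1 ≠ 0} := σ.subtypePerm hp
  refine ⟨(shiftE m).permCongr.symm s', ?_⟩
  ext1 x
  by_cases hx : x.1 ≠ 0
  · unfold ext
    rw [Equiv.Perm.extendDomain_apply_subtype (p := fun q : Fin (m+1) × Fin 2 => q.1 ≠ 0)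
      ((shiftE m).permCongr.symm s') (shiftE m) (b := x) hx]
    simp [s']
  · unfold ext
    rw [Equiv.Perm.extendDomain_apply_not_subtype (p := fun q : Fin (m+1) × Fin 2 => q.1 ≠ 0)
      ((shiftE m).permCongr.symm s') (shiftE m) (b := x) hx]
    push Not at hx
    obtain ⟨a, b⟩ := x
    simp only at hx
    subst hx
    fin_cases b
    · simp [h0]
    · simp [h1]

/-- the standard area form on the first block, in coordinates -/
def om (m : ℕ) (p q : Fin (m+1) × Fin 2) : ℝ :=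
  if p = (0,0) ∧ q = (0,1) then 1 else if p = (0,1) ∧ q = (0,0) then -1 else 0

theorem om_ne (m : ℕ) (p q : Fin (m+1) × Fin 2) (h : om m p q ≠ 0) :
    (p = (0,0) ∧ q = (0,1)) ∨ (p = (0,1) ∧ q = (0,0)) := by
  unfold om at h
  split_ifs at h with h1 h2
  · left; exact h1
  · right; exact h2
  · exact absurd rfl h

theorem om_01 (m : ℕ) : om m (0,0) (0,1) = 1 := by simp [om]
theorem om_10 (m : ℕ) : om m (0,1) (0,0) = -1 := by simp [om]

def brF (m : ℕ) (x : Equiv.Perm (Fin m × Fin 2) × Bool) : Equiv.Perm (Fin (m+1) × Fin 2) :=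
  ext m x.1 * (if x.2 then sw m else 1)

theorem brF_inj (m : ℕ) : Function.Injective (brF m) := by
  rintro ⟨s, b⟩ ⟨t, c⟩ h
  have h0 := congrArg (fun f => f (0,0)) h
  simp only [brF, Equiv.Perm.mul_apply] at h0
  have hbc : b = c := by
    cases b <;> cases c <;> simp [sw_00, ext_zero] at h0 ⊢
  subst hbc
  have : ext m s = ext m t := by
    simp only [brF] at h
    exact mul_right_cancel h
  rw [ext_inj m this]

theorem brF_sign_om (m : ℕ) (x : Equiv.Perm (Fin m × Fin 2) × Bool) :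
    ((Equiv.Perm.sign (brF m x) : ℤ) : ℝ) * om m (brF m x (0,0)) (brF m x (0,1)) =
      ((Equiv.Perm.sign x.1 : ℤ) : ℝ) := by
  obtain ⟨s, b⟩ := x
  cases b
  · simp [brF, ext_zero, om_01, ext_sign]
  · simp [brF, ext_zero, om_10, ext_sign, sw_00, sw_01, sw_sign]

theorem brF_succ (m : ℕ) (x : Equiv.Perm (Fin m × Fin 2) × Bool) (k : Fin m) (j : Fin 2) :
    brF m x (k.succ, j) = ((x.1 (k, j)).1.succ, (x.1 (k, j)).2) := by
  obtain ⟨s, b⟩ := x
  cases b
  · simp [brF, ext_succ]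
  · simp [brF, ext_succ, sw_succ]

theorem brF_range (m : ℕ) (σ : Equiv.Perm (Fin (m+1) × Fin 2)) (h : σ ∉ Set.range (brF m)) :
    om m (σ (0,0)) (σ (0,1)) = 0 := by
  by_contra hne
  apply h
  rcases om_ne m _ _ hne with ⟨h1, h2⟩ | ⟨h1, h2⟩
  · obtain ⟨s, hs⟩ := ext_surj m σ h1 h2
    exact ⟨(s, false), by simp [brF, hs]⟩
  · obtain ⟨s, hs⟩ := ext_surj m (σ * sw m) (by simp [sw_00, h2]) (by simp [sw_01, h1])
    refine ⟨(s, true), ?_⟩
    simp only [brF, hs, if_true]
    rw [mul_assoc]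
    unfold sw
    rw [Equiv.swap_mul_self, mul_one]

theorem sum_brF (m : ℕ) (H : (Fin m × Fin 2 → Fin (m+1) × Fin 2) → ℝ) :
    ∑ σ : Equiv.Perm (Fin (m+1) × Fin 2), ((Equiv.Perm.sign σ : ℤ) : ℝ) *
      om m (σ (0,0)) (σ (0,1)) * H (fun p => σ (p.1.succ, p.2)) =
    2 * ∑ s : Equiv.Perm (Fin m × Fin 2), ((Equiv.Perm.sign s : ℤ) : ℝ) *
      H (fun p => ((s p).1.succ, (s p).2)) := by
  rw [sum_comp_inj (brF m) (brF_inj m)]
  · rw [Fintype.sum_prod_type, Finset.mul_sum]
    apply Finset.sum_congr rfl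
    intro s _
    have : ∀ b : Bool, ((Equiv.Perm.sign (brF m (s, b)) : ℤ) : ℝ) *
      om m (brF m (s, b) (0,0)) (brF m (s, b) (0,1)) * H (fun p => brF m (s, b) (p.1.succ, p.2)) =
        ((Equiv.Perm.sign s : ℤ) : ℝ) * H (fun p => ((s p).1.succ, (s p).2)) := by
      intro b
      rw [brF_sign_om]
      simp only [brF_succ]
    rw [Fintype.sum_bool, this, this]
    ring
  · intro σ hσ
    rw [brF_range m σ hσ]
    ring

theorem om_mul_om (m : ℕ) (σ : Equiv.Perm (Fin (m+1) × Fin 2)) (i j : Fin (m+1)) (hij : i ≠ j) :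
    om m (σ (i,0)) (σ (i,1)) * om m (σ (j,0)) (σ (j,1)) = 0 := by
  by_contra hne
  have h1 := om_ne m _ _ (left_ne_zero_of_mul hne)
  have h2 := om_ne m _ _ (right_ne_zero_of_mul hne)
  have key : ∀ a b : Fin 2, σ (i, a) = σ (j, b) → False := by
    intro a b h
    have := σ.injective h
    exact hij (congrArg Prod.fst this)
  rcases h1 with ⟨h1, h1'⟩ | ⟨h1, h1'⟩ <;> rcases h2 with ⟨h2, h2'⟩ | ⟨h2, h2'⟩
  · exact key 0 0 (h1.trans h2.symm)
  · exact key 0 1 (h1.trans h2'.symm)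
  · exact key 1 0 (h1'.trans h2.symm)
  · exact key 0 0 (h1.trans h2.symm)

theorem prod_erase_zero (m : ℕ) (f : Fin (m+1) → ℝ) :
    ∏ k ∈ univ.erase (0 : Fin (m+1)), f k = ∏ k : Fin m, f k.succ := by
  have : univ.erase (0 : Fin (m+1)) = univ.map (Fin.succEmb m) := by
    ext k
    simp only [mem_erase, mem_univ, and_true, mem_map, true_and, Fin.coe_succEmb]
    constructor
    · intro h
      exact ⟨k.pred h, by simp⟩
    · rintro ⟨a, rfl⟩
      exact Fin.succ_ne_zero a
  rw [this, Finset.prod_map]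
  rfl

/-- the effect of adding a decomposable square `c (e₀₀ ∧ e₀₁)²`. -/
theorem gb_add (m : ℕ) (R R' : V →ₗ[ℝ] V →ₗ[ℝ] V →ₗ[ℝ] V →ₗ[ℝ] ℝ)
    (e : Fin (m+1) × Fin 2 → V) (c : ℝ)
    (h : ∀ p q r s, R (e p) (e q) (e r) (e s) =
      R' (e p) (e q) (e r) (e s) + c * (om m p q * om m r s)) :
    gbInt (m+1) R e = gbInt (m+1) R' e +
      4 * (m+1) * c * gbInt m R' (fun p => e (p.1.succ, p.2)) := by
  -- the contribution of one block
  let S : Fin (m+1) → ℝ := fun i => ∑ σ : Equiv.Perm (Fin (m+1) × Fin 2),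
    ∑ τ : Equiv.Perm (Fin (m+1) × Fin 2),
      ((Equiv.Perm.sign σ : ℤ) : ℝ) * ((Equiv.Perm.sign τ : ℤ) : ℝ) *
        (c * (om m (σ (i,0)) (σ (i,1)) * om m (τ (i,0)) (τ (i,1))) *
          ∏ k ∈ univ.erase i, R' (e (σ (k,0))) (e (σ (k,1))) (e (τ (k,0))) (e (τ (k,1))))
  have hexp : gbInt (m+1) R e = gbInt (m+1) R' e + ∑ i, S i := by
    unfold gbInt
    simp only [S]
    rw [Finset.sum_comm (s := (univ : Finset (Fin (m+1)))), ← Finset.sum_add_distrib]
    apply Finset.sum_congr rfl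
    intro σ _
    rw [Finset.sum_comm (s := (univ : Finset (Fin (m+1)))), ← Finset.sum_add_distrib]
    apply Finset.sum_congr rfl
    intro τ _
    rw [← Finset.mul_sum, ← mul_add]
    congr 1
    simp only [h]
    rw [prod_add_orth]
    intro i j hij
    have := om_mul_om m σ i j hij
    calc c * (om m (σ (i,0)) (σ (i,1)) * om m (τ (i,0)) (τ (i,1))) *
        (c * (om m (σ (j,0)) (σ (j,1)) * om m (τ (j,0)) (τ (j,1))))
        = c * c * (om m (τ (i,0)) (τ (i,1)) * om m (τ (j,0)) (τ (j,1))) *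
          (om m (σ (i,0)) (σ (i,1)) * om m (σ (j,0)) (σ (j,1))) := by ring
      _ = 0 := by rw [this, mul_zero]
  have hS : ∀ i, S i = S 0 := by
    intro i
    let π : Equiv.Perm (Fin (m+1) × Fin 2) := Equiv.prodCongr (Equiv.swap 0 i) (Equiv.refl _)
    have hπ : ∀ k j, π (k, j) = (Equiv.swap 0 i k, j) := fun k j => rfl
    have hs : ((Equiv.Perm.sign π : ℤ) : ℝ) * ((Equiv.Perm.sign π : ℤ) : ℝ) = 1 := by
      rcases Int.units_eq_one_or (Equiv.Perm.sign π) with h' | h' <;> rw [h'] <;> norm_num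
    simp only [S]
    rw [← Equiv.sum_comp (Equiv.mulRight π)]
    apply Finset.sum_congr rfl
    intro σ _
    rw [← Equiv.sum_comp (Equiv.mulRight π)]
    apply Finset.sum_congr rfl
    intro τ _
    simp only [Equiv.coe_mulRight, Equiv.Perm.mul_apply, hπ, Equiv.swap_apply_right,
      Equiv.Perm.sign_mul, Units.val_mul, Int.cast_mul]
    have hp : ∏ k ∈ univ.erase i, R' (e (σ (Equiv.swap 0 i k, 0))) (e (σ (Equiv.swap 0 i k, 1)))
        (e (τ (Equiv.swap 0 i k, 0))) (e (τ (Equiv.swap 0 i k, 1))) =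
        ∏ k ∈ univ.erase 0, R' (e (σ (k, 0))) (e (σ (k, 1))) (e (τ (k, 0))) (e (τ (k, 1))) := by
      apply Finset.prod_bij (fun k _ => Equiv.swap 0 i k)
      · intro k hk
        rw [Finset.mem_erase] at hk ⊢
        refine ⟨?_, mem_univ _⟩
        intro h0
        apply hk.1
        rw [Equiv.swap_apply_eq_iff] at h0
        simpa using h0
      · intro a _ b _ hab
        exact (Equiv.swap 0 i).injective hab
      · intro b hb
        rw [Finset.mem_erase] at hb
        refine ⟨Equiv.swap 0 i b, ?_, by simp⟩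
        rw [Finset.mem_erase]
        refine ⟨?_, mem_univ _⟩
        intro h0
        apply hb.1
        rw [Equiv.swap_apply_eq_iff] at h0
        simpa using h0
      · intro k _
        rfl
    rw [hp]
    linear_combination (((Equiv.Perm.sign σ : ℤ) : ℝ) * ((Equiv.Perm.sign τ : ℤ) : ℝ) *
        (c * (om m (σ (0,0)) (σ (0,1)) * om m (τ (0,0)) (τ (0,1))) *
          ∏ k ∈ univ.erase 0, R' (e (σ (k,0))) (e (σ (k,1))) (e (τ (k,0))) (e (τ (k,1))))) * hs
  have hS0 : S 0 = 4 * c * gbInt m R' (fun p => e (p.1.succ, p.2)) := by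
    simp only [S, prod_erase_zero]
    -- sum over τ first
    have hτ : ∀ σ : Equiv.Perm (Fin (m+1) × Fin 2),
        ∑ τ : Equiv.Perm (Fin (m+1) × Fin 2),
        ((Equiv.Perm.sign σ : ℤ) : ℝ) * ((Equiv.Perm.sign τ : ℤ) : ℝ) *
        (c * (om m (σ (0,0)) (σ (0,1)) * om m (τ (0,0)) (τ (0,1))) *
          ∏ k : Fin m, R' (e (σ (k.succ,0))) (e (σ (k.succ,1))) (e (τ (k.succ,0))) (e (τ (k.succ,1))))
        = 2 * c * (((Equiv.Perm.sign σ : ℤ) : ℝ) * om m (σ (0,0)) (σ (0,1)) *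
          ∑ t : Equiv.Perm (Fin m × Fin 2), ((Equiv.Perm.sign t : ℤ) : ℝ) *
            ∏ k : Fin m, R' (e (σ (k.succ,0))) (e (σ (k.succ,1)))
              (e ((t (k,0)).1.succ, (t (k,0)).2)) (e ((t (k,1)).1.succ, (t (k,1)).2))) := by
      intro σ
      have := sum_brF m (fun g => ∏ k : Fin m, R' (e (σ (k.succ,0))) (e (σ (k.succ,1)))
        (e (g (k,0))) (e (g (k,1))))
      simp only at this
      have h2 : ∀ τ : Equiv.Perm (Fin (m+1) × Fin 2),
        ((Equiv.Perm.sign σ : ℤ) : ℝ) * ((Equiv.Perm.sign τ : ℤ) : ℝ) *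
        (c * (om m (σ (0,0)) (σ (0,1)) * om m (τ (0,0)) (τ (0,1))) *
          ∏ k : Fin m, R' (e (σ (k.succ,0))) (e (σ (k.succ,1))) (e (τ (k.succ,0))) (e (τ (k.succ,1))))
        = (c * ((Equiv.Perm.sign σ : ℤ) : ℝ) * om m (σ (0,0)) (σ (0,1))) *
          (((Equiv.Perm.sign τ : ℤ) : ℝ) * om m (τ (0,0)) (τ (0,1)) *
          ∏ k : Fin m, R' (e (σ (k.succ,0))) (e (σ (k.succ,1))) (e (τ (k.succ,0))) (e (τ (k.succ,1)))) := by
        intro τ; ring
      simp only [h2]
      rw [← Finset.mul_sum, this]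
      ring
    simp only [hτ]
    rw [← Finset.mul_sum]
    have h3 := sum_brF m (fun g => ∑ t : Equiv.Perm (Fin m × Fin 2), ((Equiv.Perm.sign t : ℤ) : ℝ) *
            ∏ k : Fin m, R' (e (g (k,0))) (e (g (k,1)))
              (e ((t (k,0)).1.succ, (t (k,0)).2)) (e ((t (k,1)).1.succ, (t (k,1)).2)))
    simp only at h3
    rw [h3]
    unfold gbInt
    rw [Finset.mul_sum, Finset.mul_sum, Finset.mul_sum]
    apply Finset.sum_congr rfl
    intro s _
    rw [Finset.mul_sum, Finset.mul_sum, Finset.mul_sum, Finset.mul_sum]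
    apply Finset.sum_congr rfl
    intro t _
    ring
  rw [hexp]
  congr 1
  rw [Finset.sum_congr rfl (fun i _ => hS i), Finset.sum_const, hS0, Finset.card_univ,
    Fintype.card_fin, nsmul_eq_mul]
  push_cast
  ring

end H824GB
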