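import Pool.Agent.H824R2.GB3

set_option autoImplicit false

namespace H824GB

open Finset

theorem sum_perm4 (A : Fin 2 × Fin 2 → Fin 2 × Fin 2 → Fin 2 × Fin 2 → Fin 2 × Fin 2 → ℝ) :
    ∑ σ : Equiv.Perm (Fin 2 × Fin 2), ((Equiv.Perm.sign σ : ℤ) : ℝ) * A (σ (0,0)) (σ (0,1)) (σ (1,0)) (σ (1,1)) =
      0 + A (0,0) (0,1) (1,0) (1,1) - A (0,0) (0,1) (1,1) (1,0) - A (0,0) (1,0) (0,1) (1,1) + A (0,0) (1,0) (1,1) (0,1) + A (0,0) (1,1) (0,1) (1,0) - A (0,0) (1,1) (1,0) (0,1) - A (0,1) (0,0) (1,0) (1,1) + A (0,1) (0,0) (1,1) (1,0) + A (0,1) (1,0) (0,0) (1,1) - A (0,1) (1,0) (1,1) (0,0) - A (0,1) (1,1) (0,0) (1,0) + A (0,1) (1,1) (1,0) (0,0) + A (1,0) (0,0) (0,1) (1,1) - A (1,0) (0,0) (1,1) (0,1) - A (1,0) (0,1) (0,0) (1,1) + A (1,0) (0,1) (1,1) (0,0) + A (1,0) (1,1) (0,0) (0,1) - A (1,0) (1,1) (0,1) (0,0) - A (1,1) (0,0) (0,1) (1,0)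 + A (1,1) (0,0) (1,0) (0,1) + A (1,1) (0,1) (0,0) (1,0) - A (1,1) (0,1) (1,0) (0,0) - A (1,1) (1,0) (0,0) (0,1) + A (1,1) (1,0) (0,1) (0,0) := by
  have key : (univ : Finset (Equiv.Perm (Fin 2 × Fin 2))).val.map (fun σ => ((Equiv.Perm.sign σ : ℤ), σ (0,0), σ (0,1), σ (1,0), σ (1,1))) =
    (([(1,(0,0),(0,1),(1,0),(1,1)), (-1,(0,0),(0,1),(1,1),(1,0)), (-1,(0,0),(1,0),(0,1),(1,1)), (1,(0,0),(1,0),(1,1),(0,1)), (1,(0,0),(1,1),(0,1),(1,0)), (-1,(0,0),(1,1),(1,0),(0,1)), (-1,(0,1),(0,0),(1,0),(1,1)), (1,(0,1),(0,0),(1,1),(1,0)), (1,(0,1),(1,0),(0,0),(1,1)), (-1,(0,1),(1,0),(1,1),(0,0)), (-1,(0,1),(1,1),(0,0),(1,0)), (1,(0,1),(1,1),(1,0),(0,0)), (1,(1,0),(0,0),(0,1),(1,1)), (-1,(1,0),(0,0),(1,1),(0,1)), (-1,(1,0),(0,1),(0,0),(1,1)), (1,(1,0),(0,1),(1,1),(0,0)), (1,(1,0),(1,1),(0,0),(0,1)), (-1,(1,0),(1,1),(0,1),(0,0)), (-1,(1,1),(0,0),(0,1),(1,0)),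 (1,(1,1),(0,0),(1,0),(0,1)), (1,(1,1),(0,1),(0,0),(1,0)), (-1,(1,1),(0,1),(1,0),(0,0)), (-1,(1,1),(1,0),(0,0),(0,1)), (1,(1,1),(1,0),(0,1),(0,0))] : List (ℤ × (Fin 2 × Fin 2) × (Fin 2 × Fin 2) × (Fin 2 × Fin 2) × (Fin 2 × Fin 2))) : Multiset _) := by
    decide +kernel
  have h : ∑ σ : Equiv.Perm (Fin 2 × Fin 2), ((Equiv.Perm.sign σ : ℤ) : ℝ) * A (σ (0,0)) (σ (0,1)) (σ (1,0)) (σ (1,1)) =
    (((univ : Finset (Equiv.Perm (Fin 2 × Fin 2))).val.map (fun σ => ((Equiv.Perm.sign σ : ℤ), σ (0,0), σ (0,1), σ (1,0), σ (1,1)))).map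
      (fun q => (q.1 : ℝ) * A q.2.1 q.2.2.1 q.2.2.2.1 q.2.2.2.2)).sum := by
    rw [Multiset.map_map]
    rfl
  rw [h, key]
  simp only [Multiset.map_coe, List.map_cons, List.map_nil, Multiset.sum_coe, List.sum_cons, List.sum_nil]
  push_cast
  ring


theorem sum_anti (A B : Fin 2 × Fin 2 → Fin 2 × Fin 2 → ℝ) (hA : ∀ p q, A p q = - A q p)
    (hB : ∀ p q, B p q = - B q p) :
    ∑ σ : Equiv.Perm (Fin 2 × Fin 2), ((Equiv.Perm.sign σ : ℤ) : ℝ) *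
      (A (σ (0,0)) (σ (0,1)) * B (σ (1,0)) (σ (1,1))) =
    4 * (A (0,0) (0,1) * B (1,0) (1,1) - A (0,0) (1,0) * B (0,1) (1,1)
      + A (0,0) (1,1) * B (0,1) (1,0) + A (0,1) (1,0) * B (0,0) (1,1)
      - A (0,1) (1,1) * B (0,0) (1,0) + A (1,0) (1,1) * B (0,0) (0,1)) := by
  rw [sum_perm4 (fun p q r s => A p q * B r s)]
  rw [hA (0,1) (0,0), hA (1,0) (0,0), hA (1,1) (0,0), hA (1,0) (0,1), hA (1,1) (0,1),
    hA (1,1) (1,0), hB (0,1) (0,0), hB (1,0) (0,0), hB (1,1) (0,0), hB (1,0) (0,1),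
    hB (1,1) (0,1), hB (1,1) (1,0)]
  ring

variable {V : Type*} [NormedAddCommGroup V] [InnerProductSpace ℝ V]

theorem gb2_formula (R : V →ₗ[ℝ] V →ₗ[ℝ] V →ₗ[ℝ] V →ₗ[ℝ] ℝ)
    (h1 : ∀ x y z w, R x y z w = - R y x z w) (h2 : ∀ x y z w, R x y z w = - R x y w z)
    (e : Fin 2 × Fin 2 → V) :
    gbInt 2 R e = 16 * (0
        + R (e (0,0)) (e (0,1)) (e (0,0)) (e (0,1)) * R (e (1,0)) (e (1,1)) (e (1,0)) (e (1,1))
        - R (e (0,0)) (e (0,1)) (e (0,0)) (e (1,0)) * R (e (1,0)) (e (1,1)) (e (0,1)) (e (1,1))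
        + R (e (0,0)) (e (0,1)) (e (0,0)) (e (1,1)) * R (e (1,0)) (e (1,1)) (e (0,1)) (e (1,0))
        + R (e (0,0)) (e (0,1)) (e (0,1)) (e (1,0)) * R (e (1,0)) (e (1,1)) (e (0,0)) (e (1,1))
        - R (e (0,0)) (e (0,1)) (e (0,1)) (e (1,1)) * R (e (1,0)) (e (1,1)) (e (0,0)) (e (1,0))
        + R (e (0,0)) (e (0,1)) (e (1,0)) (e (1,1)) * R (e (1,0)) (e (1,1)) (e (0,0)) (e (0,1))
        - R (e (0,0)) (e (1,0)) (e (0,0)) (e (0,1)) * R (e (0,1)) (e (1,1)) (e (1,0)) (e (1,1))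
        + R (e (0,0)) (e (1,0)) (e (0,0)) (e (1,0)) * R (e (0,1)) (e (1,1)) (e (0,1)) (e (1,1))
        - R (e (0,0)) (e (1,0)) (e (0,0)) (e (1,1)) * R (e (0,1)) (e (1,1)) (e (0,1)) (e (1,0))
        - R (e (0,0)) (e (1,0)) (e (0,1)) (e (1,0)) * R (e (0,1)) (e (1,1)) (e (0,0)) (e (1,1))
        + R (e (0,0)) (e (1,0)) (e (0,1)) (e (1,1)) * R (e (0,1)) (e (1,1)) (e (0,0)) (e (1,0))
        - R (e (0,0)) (e (1,0)) (e (1,0)) (e (1,1)) * R (e (0,1)) (e (1,1)) (e (0,0)) (e (0,1))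
        + R (e (0,0)) (e (1,1)) (e (0,0)) (e (0,1)) * R (e (0,1)) (e (1,0)) (e (1,0)) (e (1,1))
        - R (e (0,0)) (e (1,1)) (e (0,0)) (e (1,0)) * R (e (0,1)) (e (1,0)) (e (0,1)) (e (1,1))
        + R (e (0,0)) (e (1,1)) (e (0,0)) (e (1,1)) * R (e (0,1)) (e (1,0)) (e (0,1)) (e (1,0))
        + R (e (0,0)) (e (1,1)) (e (0,1)) (e (1,0)) * R (e (0,1)) (e (1,0)) (e (0,0)) (e (1,1))
        - R (e (0,0)) (e (1,1)) (e (0,1)) (e (1,1)) * R (e (0,1)) (e (1,0)) (e (0,0)) (e (1,0))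
        + R (e (0,0)) (e (1,1)) (e (1,0)) (e (1,1)) * R (e (0,1)) (e (1,0)) (e (0,0)) (e (0,1))
        + R (e (0,1)) (e (1,0)) (e (0,0)) (e (0,1)) * R (e (0,0)) (e (1,1)) (e (1,0)) (e (1,1))
        - R (e (0,1)) (e (1,0)) (e (0,0)) (e (1,0)) * R (e (0,0)) (e (1,1)) (e (0,1)) (e (1,1))
        + R (e (0,1)) (e (1,0)) (e (0,0)) (e (1,1)) * R (e (0,0)) (e (1,1)) (e (0,1)) (e (1,0))
        + R (e (0,1)) (e (1,0)) (e (0,1)) (e (1,0)) * R (e (0,0)) (e (1,1)) (e (0,0)) (e (1,1))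
        - R (e (0,1)) (e (1,0)) (e (0,1)) (e (1,1)) * R (e (0,0)) (e (1,1)) (e (0,0)) (e (1,0))
        + R (e (0,1)) (e (1,0)) (e (1,0)) (e (1,1)) * R (e (0,0)) (e (1,1)) (e (0,0)) (e (0,1))
        - R (e (0,1)) (e (1,1)) (e (0,0)) (e (0,1)) * R (e (0,0)) (e (1,0)) (e (1,0)) (e (1,1))
        + R (e (0,1)) (e (1,1)) (e (0,0)) (e (1,0)) * R (e (0,0)) (e (1,0)) (e (0,1)) (e (1,1))
        - R (e (0,1)) (e (1,1)) (e (0,0)) (e (1,1)) * R (e (0,0)) (e (1,0)) (e (0,1)) (e (1,0))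
        - R (e (0,1)) (e (1,1)) (e (0,1)) (e (1,0)) * R (e (0,0)) (e (1,0)) (e (0,0)) (e (1,1))
        + R (e (0,1)) (e (1,1)) (e (0,1)) (e (1,1)) * R (e (0,0)) (e (1,0)) (e (0,0)) (e (1,0))
        - R (e (0,1)) (e (1,1)) (e (1,0)) (e (1,1)) * R (e (0,0)) (e (1,0)) (e (0,0)) (e (0,1))
        + R (e (1,0)) (e (1,1)) (e (0,0)) (e (0,1)) * R (e (0,0)) (e (0,1)) (e (1,0)) (e (1,1))
        - R (e (1,0)) (e (1,1)) (e (0,0)) (e (1,0)) * R (e (0,0)) (e (0,1)) (e (0,1)) (e (1,1))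
        + R (e (1,0)) (e (1,1)) (e (0,0)) (e (1,1)) * R (e (0,0)) (e (0,1)) (e (0,1)) (e (1,0))
        + R (e (1,0)) (e (1,1)) (e (0,1)) (e (1,0)) * R (e (0,0)) (e (0,1)) (e (0,0)) (e (1,1))
        - R (e (1,0)) (e (1,1)) (e (0,1)) (e (1,1)) * R (e (0,0)) (e (0,1)) (e (0,0)) (e (1,0))
        + R (e (1,0)) (e (1,1)) (e (1,0)) (e (1,1)) * R (e (0,0)) (e (0,1)) (e (0,0)) (e (0,1))) := by
  unfold gbInt
  simp only [Fin.prod_univ_two]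
  rw [Finset.sum_comm]
  have hs : ∀ τ : Equiv.Perm (Fin 2 × Fin 2),
      ∑ σ : Equiv.Perm (Fin 2 × Fin 2), ((Equiv.Perm.sign σ : ℤ) : ℝ) *
        ((Equiv.Perm.sign τ : ℤ) : ℝ) *
        (R (e (σ (0,0))) (e (σ (0,1))) (e (τ (0,0))) (e (τ (0,1))) *
         R (e (σ (1,0))) (e (σ (1,1))) (e (τ (1,0))) (e (τ (1,1)))) =
      ((Equiv.Perm.sign τ : ℤ) : ℝ) *
      (4 * (R (e (0,0)) (e (0,1)) (e (τ (0,0))) (e (τ (0,1))) * R (e (1,0)) (e (1,1)) (e (τ (1,0))) (e (τ (1,1)))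
      - R (e (0,0)) (e (1,0)) (e (τ (0,0))) (e (τ (0,1))) * R (e (0,1)) (e (1,1)) (e (τ (1,0))) (e (τ (1,1)))
      + R (e (0,0)) (e (1,1)) (e (τ (0,0))) (e (τ (0,1))) * R (e (0,1)) (e (1,0)) (e (τ (1,0))) (e (τ (1,1)))
      + R (e (0,1)) (e (1,0)) (e (τ (0,0))) (e (τ (0,1))) * R (e (0,0)) (e (1,1)) (e (τ (1,0))) (e (τ (1,1)))
      - R (e (0,1)) (e (1,1)) (e (τ (0,0))) (e (τ (0,1))) * R (e (0,0)) (e (1,0)) (e (τ (1,0))) (e (τ (1,1)))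
      + R (e (1,0)) (e (1,1)) (e (τ (0,0))) (e (τ (0,1))) * R (e (0,0)) (e (0,1)) (e (τ (1,0))) (e (τ (1,1))))) := by
    intro τ
    have := sum_anti (fun p q => R (e p) (e q) (e (τ (0,0))) (e (τ (0,1))))
      (fun p q => R (e p) (e q) (e (τ (1,0))) (e (τ (1,1)))) (fun p q => h1 _ _ _ _) (fun p q => h1 _ _ _ _)
    rw [← this, Finset.mul_sum]
    apply Finset.sum_congr rfl
    intro σ _
    ring
  simp only [hs]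
  have ht : ∀ a b c d : Fin 2 × Fin 2, ∑ τ : Equiv.Perm (Fin 2 × Fin 2), ((Equiv.Perm.sign τ : ℤ) : ℝ) *
      (R (e a) (e b) (e (τ (0,0))) (e (τ (0,1))) * R (e c) (e d) (e (τ (1,0))) (e (τ (1,1)))) =
      4 * (R (e a) (e b) (e (0,0)) (e (0,1)) * R (e c) (e d) (e (1,0)) (e (1,1))
      - R (e a) (e b) (e (0,0)) (e (1,0)) * R (e c) (e d) (e (0,1)) (e (1,1))
      + R (e a) (e b) (e (0,0)) (e (1,1)) * R (e c) (e d) (e (0,1)) (e (1,0))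
      + R (e a) (e b) (e (0,1)) (e (1,0)) * R (e c) (e d) (e (0,0)) (e (1,1))
      - R (e a) (e b) (e (0,1)) (e (1,1)) * R (e c) (e d) (e (0,0)) (e (1,0))
      + R (e a) (e b) (e (1,0)) (e (1,1)) * R (e c) (e d) (e (0,0)) (e (0,1))) := by
    intro a b c d
    exact sum_anti (fun p q => R (e a) (e b) (e p) (e q)) (fun p q => R (e c) (e d) (e p) (e q))
      (fun p q => h2 _ _ _ _) (fun p q => h2 _ _ _ _)
  have hsplit : ∀ (s a b c d f g : ℝ), s * (4 * (a - b + c + d - f + g)) =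
      4 * (s * a) - 4 * (s * b) + 4 * (s * c) + 4 * (s * d) - 4 * (s * f) + 4 * (s * g) := by
    intros; ring
  simp only [hsplit]
  simp only [Finset.sum_add_distrib, Finset.sum_sub_distrib, ← Finset.mul_sum, ht]
  ring

/-- positivity in the special basis -/
theorem gb2_special (R : V →ₗ[ℝ] V →ₗ[ℝ] V →ₗ[ℝ] V →ₗ[ℝ] ℝ)
    (h1 : ∀ x y z w, R x y z w = - R y x z w) (h2 : ∀ x y z w, R x y z w = - R x y w z)
    (h3 : ∀ x y z w, R x y z w = R z w x y)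
    (hsec : ∀ x y, 0 ≤ R x y x y)
    (e : Fin 2 × Fin 2 → V)
    (a1 : R (e (0,0)) (e (0,1)) (e (0,0)) (e (1,0)) = 0)
    (a2 : R (e (0,0)) (e (0,1)) (e (0,0)) (e (1,1)) = 0)
    (a3 : R (e (0,0)) (e (0,1)) (e (0,1)) (e (1,0)) = 0)
    (a4 : R (e (0,0)) (e (0,1)) (e (0,1)) (e (1,1)) = 0)
    (a5 : R (e (0,0)) (e (1,0)) (e (0,0)) (e (1,1)) = 0)
    (a6 : R (e (0,0)) (e (1,0)) (e (0,1)) (e (1,0)) = 0) :
    0 ≤ gbInt 2 R e := by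
  rw [gb2_formula R h1 h2 e]
  have b1 := h3 (e (0,0)) (e (1,0)) (e (0,0)) (e (0,1))
  have b2 := h3 (e (0,0)) (e (1,1)) (e (0,0)) (e (0,1))
  have b3 := h3 (e (0,1)) (e (1,0)) (e (0,0)) (e (0,1))
  have b4 := h3 (e (0,1)) (e (1,1)) (e (0,0)) (e (0,1))
  have b5 := h3 (e (0,0)) (e (1,1)) (e (0,0)) (e (1,0))
  have b6 := h3 (e (0,1)) (e (1,0)) (e (0,0)) (e (1,0))
  have c1 := h3 (e (1,0)) (e (1,1)) (e (0,0)) (e (0,1))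
  have c2 := h3 (e (0,1)) (e (1,1)) (e (0,0)) (e (1,0))
  have c3 := h3 (e (0,1)) (e (1,0)) (e (0,0)) (e (1,1))
  rw [a1] at b1
  rw [a2] at b2
  rw [a3] at b3
  rw [a4] at b4
  rw [a5] at b5
  rw [a6] at b6
  rw [a1, a2, a3, a4, a5, a6, b1, b2, b3, b4, b5, b6, c1, c2, c3]
  have p1 := mul_nonneg (hsec (e (0,0)) (e (0,1))) (hsec (e (1,0)) (e (1,1)))
  have p2 := mul_nonneg (hsec (e (0,0)) (e (1,0))) (hsec (e (0,1)) (e (1,1)))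
  have p3 := mul_nonneg (hsec (e (0,0)) (e (1,1))) (hsec (e (0,1)) (e (1,0)))
  have q1 := mul_self_nonneg (R (e (0,0)) (e (0,1)) (e (1,0)) (e (1,1)))
  have q2 := mul_self_nonneg (R (e (0,0)) (e (1,0)) (e (0,1)) (e (1,1)))
  have q3 := mul_self_nonneg (R (e (0,0)) (e (1,1)) (e (0,1)) (e (1,0)))
  linarith

end H824GB
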