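import Pool.Agent.H824R2.GB4

set_option autoImplicit false

namespace H824GB

open Finset

variable {V : Type*} [NormedAddCommGroup V] [InnerProductSpace ℝ V]

open scoped RealInnerProductSpace

/-- an orthonormal basis starting with a prescribed orthonormal pair -/
theorem exists_basis_pair (m : ℕ) (b0 : OrthonormalBasis (Fin (m+1) × Fin 2) ℝ V)
    (x y : V) (hx : ‖x‖ = 1) (hy : ‖y‖ = 1) (hxy : ⟪x, y⟫ = 0) :
    ∃ b : OrthonormalBasis (Fin (m+1) × Fin 2) ℝ V, b (0,0) = x ∧ b (0,1) = y := by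
  classical
  have hfd : FiniteDimensional ℝ V := b0.toBasis.finiteDimensional_of_finite
  have hcard : Module.finrank ℝ V = Fintype.card (Fin (m+1) × Fin 2) :=
    Module.finrank_eq_card_basis b0.toBasis
  let v : Fin (m+1) × Fin 2 → V := fun p => if p = (0,0) then x else y
  let s : Set (Fin (m+1) × Fin 2) := {(0,0), (0,1)}
  have hne : ((0,1) : Fin (m+1) × Fin 2) ≠ (0,0) := by simp
  have hv : Orthonormal ℝ (s.domRestrict v) := by
    rw [orthonormal_iff_ite]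
    rintro ⟨p, hp⟩ ⟨q, hq⟩
    simp only [s, Set.mem_insert_iff, Set.mem_singleton_iff] at hp hq
    have hyx : ⟪y, x⟫ = 0 := by rw [real_inner_comm]; exact hxy
    have hxx : ⟪x, x⟫ = 1 := by rw [real_inner_self_eq_norm_sq, hx]; norm_num
    have hyy : ⟪y, y⟫ = 1 := by rw [real_inner_self_eq_norm_sq, hy]; norm_num
    change ⟪v p, v q⟫ = _
    rcases hp with rfl | rfl <;> rcases hq with rfl | rfl <;>
      simp only [v, hxx, hyy, hxy, hyx, if_true, if_neg hne, Subtype.mk.injEq, hne, hne.symm, if_false]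
  obtain ⟨b, hb⟩ := hv.exists_orthonormalBasis_extension_of_card_eq hcard
  refine ⟨b, ?_, ?_⟩
  · rw [hb (0,0) (by simp [s])]; simp [v]
  · rw [hb (0,1) (by simp [s])]; simp [v]

/-- expansion of a 4-linear function in an orthonormal basis -/
theorem expand4 {ι : Type*} [Fintype ι] (b : OrthonormalBasis ι ℝ V)
    (R : V →ₗ[ℝ] V →ₗ[ℝ] V →ₗ[ℝ] V →ₗ[ℝ] ℝ) (x y z w : V) :
    R x y z w = ∑ p, ∑ q, ∑ r, ∑ s, ⟪b p, x⟫ * (⟪b q, y⟫ * (⟪b r, z⟫ * (⟪b s, w⟫ *
      R (b p) (b q) (b r) (b s)))) := by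
  have h1 : ∀ x y z w, R x y z w = ∑ p, ⟪b p, x⟫ * R (b p) y z w := by
    intro x y z w
    conv_lhs => rw [← b.sum_repr' x]
    simp only [map_sum, LinearMap.sum_apply, map_smul, LinearMap.smul_apply, smul_eq_mul]
  have h2 : ∀ x y z w, R x y z w = ∑ p, ⟪b p, y⟫ * R x (b p) z w := by
    intro x y z w
    conv_lhs => rw [← b.sum_repr' y]
    simp only [map_sum, LinearMap.sum_apply, map_smul, LinearMap.smul_apply, smul_eq_mul]
  have h3 : ∀ x y z w, R x y z w = ∑ p, ⟪b p, z⟫ * R x y (b p) w := by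
    intro x y z w
    conv_lhs => rw [← b.sum_repr' z]
    simp only [map_sum, LinearMap.sum_apply, map_smul, LinearMap.smul_apply, smul_eq_mul]
  have h4 : ∀ x y z w, R x y z w = ∑ p, ⟪b p, w⟫ * R x y z (b p) := by
    intro x y z w
    conv_lhs => rw [← b.sum_repr' w]
    simp only [map_sum, map_smul, smul_eq_mul]
  rw [h1]
  apply Finset.sum_congr rfl; intro p _
  rw [h2, Finset.mul_sum]
  apply Finset.sum_congr rfl; intro q _
  rw [h3, Finset.mul_sum, Finset.mul_sum]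
  apply Finset.sum_congr rfl; intro r _
  rw [h4, Finset.mul_sum, Finset.mul_sum, Finset.mul_sum]

theorem cont_sec {ι : Type*} [Fintype ι] (b : OrthonormalBasis ι ℝ V)
    (R : V →ₗ[ℝ] V →ₗ[ℝ] V →ₗ[ℝ] V →ₗ[ℝ] ℝ) :
    Continuous (fun p : V × V => R p.1 p.2 p.1 p.2) := by
  have : (fun p : V × V => R p.1 p.2 p.1 p.2) = fun p : V × V =>
      ∑ i, ∑ j, ∑ k, ∑ l, ⟪b i, p.1⟫ * (⟪b j, p.2⟫ * (⟪b k, p.1⟫ * (⟪b l, p.2⟫ *
      R (b i) (b j) (b k) (b l)))) := by
    funext p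
    exact expand4 b R _ _ _ _
  rw [this]
  fun_prop

theorem quad_lemma (A C : ℝ) (h : ∀ t : ℝ, 2 * t * A + t^2 * C ≤ 0) : A = 0 := by
  by_contra hA
  have hA2 : 0 < A^2 := by positivity
  have hC : 0 < |C| + 1 := by positivity
  have h1 := h (A / (|C| + 1))
  have h2 : 2 * (A / (|C| + 1)) * A + (A / (|C| + 1))^2 * C =
      A^2 * (2 * (|C| + 1) + C) / (|C| + 1)^2 := by
    field_simp
  rw [h2] at h1
  have h3 : 0 < 2 * (|C| + 1) + C := by
    have := neg_abs_le C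
    have := abs_nonneg C
    linarith
  have : 0 < A^2 * (2 * (|C| + 1) + C) / (|C| + 1)^2 := by positivity
  linarith

/-- nonzero unit vectors: from sec ≥ on unit orthonormal pairs by maximality -/
theorem max_pair {ι : Type*} [Fintype ι] (b : OrthonormalBasis ι ℝ V)
    (R : V →ₗ[ℝ] V →ₗ[ℝ] V →ₗ[ℝ] V →ₗ[ℝ] ℝ) (x₀ y₀ : V) (hx : ‖x₀‖ = 1) (hy : ‖y₀‖ = 1)
    (hxy : ⟪x₀, y₀⟫ = 0) :
    ∃ x y : V, ‖x‖ = 1 ∧ ‖y‖ = 1 ∧ ⟪x, y⟫ = 0 ∧
      ∀ x' y' : V, ‖x'‖ = 1 → ‖y'‖ = 1 → ⟪x', y'⟫ = 0 → R x' y' x' y' ≤ R x y x y := by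
  have hfd : FiniteDimensional ℝ V := b.toBasis.finiteDimensional_of_finite
  have hproper : ProperSpace V := FiniteDimensional.proper ℝ V
  let K : Set (V × V) := {p | ‖p.1‖ = 1 ∧ ‖p.2‖ = 1 ∧ ⟪p.1, p.2⟫ = 0}
  have hclosed : IsClosed K := by
    apply IsClosed.and
    · exact isClosed_eq (by fun_prop) continuous_const
    · apply IsClosed.and
      · exact isClosed_eq (by fun_prop) continuous_const
      · exact isClosed_eq (by fun_prop) continuous_const
  have hbdd : Bornology.IsBounded K := by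
    apply (Metric.isBounded_closedBall (x := (0 : V × V)) (r := 1)).subset
    rintro ⟨a, c⟩ ⟨h1, h2, _⟩
    simp only [Metric.mem_closedBall, dist_zero_right]
    rw [Prod.norm_def]
    simp only at h1 h2
    simp [h1, h2]
  have hK : IsCompact K := Metric.isCompact_of_isClosed_isBounded hclosed hbdd
  obtain ⟨⟨x, y⟩, ⟨h1, h2, h3⟩, hmax⟩ := hK.exists_isMaxOn ⟨(x₀, y₀), hx, hy, hxy⟩
    (cont_sec b R).continuousOn
  refine ⟨x, y, h1, h2, h3, ?_⟩
  intro x' y' hx' hy' hxy'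
  exact hmax (show (x', y') ∈ K from ⟨hx', hy', hxy'⟩)

end H824GB
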