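import Pool.Agent.H824R2.GB5

set_option autoImplicit false

namespace H824GB

open Finset

variable {V : Type*} [NormedAddCommGroup V] [InnerProductSpace ℝ V]

open scoped RealInnerProductSpace

/-- the rotated unit vector -/
theorem rot_norm (u v : V) (hu : ‖u‖ = 1) (hv : ‖v‖ = 1) (huv : ⟪u, v⟫ = 0) (t : ℝ) :
    ‖(Real.sqrt (1 + t^2))⁻¹ • (u + t • v)‖ = 1 := by
  have hpos : 0 < 1 + t^2 := by positivity
  have h1 : ‖u + t • v‖ = Real.sqrt (1 + t^2) := by
    rw [← Real.sqrt_sq (norm_nonneg (u + t • v))]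
    congr 1
    rw [← real_inner_self_eq_norm_sq]
    have hvu : ⟪v, u⟫ = 0 := by rw [real_inner_comm]; exact huv
    rw [inner_add_left, inner_add_right, inner_add_right, inner_smul_left, inner_smul_right,
      inner_smul_right, inner_smul_left, huv, hvu, real_inner_self_eq_norm_sq,
      real_inner_self_eq_norm_sq, hu, hv]
    simp
    ring
  rw [norm_smul, norm_inv, h1, Real.norm_of_nonneg (Real.sqrt_nonneg _)]
  exact inv_mul_cancel₀ (Real.sqrt_pos.mpr hpos).ne'

theorem sq_inv_sqrt (t : ℝ) : (Real.sqrt (1 + t^2))⁻¹ * (Real.sqrt (1 + t^2))⁻¹ = (1 + t^2)⁻¹ := by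
  have hpos : 0 ≤ 1 + t^2 := by positivity
  rw [← mul_inv, Real.mul_self_sqrt hpos]

/-- first order condition, second variable -/
theorem fo_right (R : V →ₗ[ℝ] V →ₗ[ℝ] V →ₗ[ℝ] V →ₗ[ℝ] ℝ)
    (h3 : ∀ x y z w, R x y z w = R z w x y) (x y z : V)
    (h : ∀ t : ℝ, R x ((Real.sqrt (1 + t^2))⁻¹ • (y + t • z)) x
      ((Real.sqrt (1 + t^2))⁻¹ • (y + t • z)) ≤ R x y x y) : R x y x z = 0 := by
  apply quad_lemma _ (R x z x z - R x y x y)
  intro t
  have hpos : 0 < 1 + t^2 := by positivity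
  have h1 := h t
  simp only [map_smul, LinearMap.smul_apply, smul_eq_mul] at h1
  rw [← mul_assoc, sq_inv_sqrt, inv_mul_le_iff₀ hpos] at h1
  simp only [map_add, map_smul, LinearMap.add_apply, LinearMap.smul_apply, smul_eq_mul] at h1
  have h2 := h3 x z x y
  rw [h2] at h1
  have e1 : 2 * t * R x y x z + t^2 * (R x z x z - R x y x y) =
    (R x y x y + t * R x y x z + t * (R x y x z + t * R x z x z)) - (1 + t^2) * R x y x y := by ring
  rw [e1]
  linarith [h1]

/-- first order condition, first variable -/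
theorem fo_left (R : V →ₗ[ℝ] V →ₗ[ℝ] V →ₗ[ℝ] V →ₗ[ℝ] ℝ)
    (h3 : ∀ x y z w, R x y z w = R z w x y) (x y z : V)
    (h : ∀ t : ℝ, R ((Real.sqrt (1 + t^2))⁻¹ • (x + t • z)) y
      ((Real.sqrt (1 + t^2))⁻¹ • (x + t • z)) y ≤ R x y x y) : R x y z y = 0 := by
  apply quad_lemma _ (R z y z y - R x y x y)
  intro t
  have hpos : 0 < 1 + t^2 := by positivity
  have h1 := h t
  simp only [map_smul, LinearMap.smul_apply, smul_eq_mul] at h1
  rw [← mul_assoc, sq_inv_sqrt, inv_mul_le_iff₀ hpos] at h1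
  simp only [map_add, map_smul, LinearMap.add_apply, LinearMap.smul_apply, smul_eq_mul] at h1
  have h2 := h3 z y x y
  rw [h2] at h1
  have e1 : 2 * t * R x y z y + t^2 * (R z y z y - R x y x y) =
    (R x y x y + t * R x y z y + t * (R x y z y + t * R z y z y)) - (1 + t^2) * R x y x y := by ring
  rw [e1]
  linarith [h1]

end H824GB
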