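import Pool.Agent.H824R2.GB6

set_option autoImplicit false

namespace H824GB

open Finset

variable {V : Type*} [NormedAddCommGroup V] [InnerProductSpace ℝ V]

open scoped RealInnerProductSpace

theorem norm_one_of (v : V) (h : ⟪v, v⟫ = 1) : ‖v‖ = 1 := by
  rw [real_inner_self_eq_norm_sq] at h
  have h2 := norm_nonneg v
  nlinarith

theorem inner_one_of (v : V) (h : ‖v‖ = 1) : ⟪v, v⟫ = 1 := by
  rw [real_inner_self_eq_norm_sq, h]; norm_num

/-- the torus maximum of the second stage -/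
theorem max_torus {ι : Type*} [Fintype ι] (b : OrthonormalBasis ι ℝ V)
    (R : V →ₗ[ℝ] V →ₗ[ℝ] V →ₗ[ℝ] V →ₗ[ℝ] ℝ) (x y z w : V) (hx : ‖x‖ = 1) (hz : ‖z‖ = 1)
    (hxz : ⟪x, z⟫ = 0) (hyz : ⟪y, z⟫ = 0) (hxw : ⟪x, w⟫ = 0) :
    ∃ u v : V, ‖u‖ = 1 ∧ ‖v‖ = 1 ∧ ⟪u, z⟫ = 0 ∧ ⟪u, w⟫ = 0 ∧ ⟪x, v⟫ = 0 ∧ ⟪y, v⟫ = 0 ∧
      ∀ u' v' : V, ‖u'‖ = 1 → ‖v'‖ = 1 → ⟪u', z⟫ = 0 → ⟪u', w⟫ = 0 → ⟪x, v'⟫ = 0 → ⟪y, v'⟫ = 0 →
        R u' v' u' v' ≤ R u v u v := by
  have hfd : FiniteDimensional ℝ V := b.toBasis.finiteDimensional_of_finite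
  have hproper : ProperSpace V := FiniteDimensional.proper ℝ V
  let K : Set (V × V) := {p | ‖p.1‖ = 1 ∧ ‖p.2‖ = 1 ∧ ⟪p.1, z⟫ = 0 ∧ ⟪p.1, w⟫ = 0 ∧
    ⟪x, p.2⟫ = 0 ∧ ⟪y, p.2⟫ = 0}
  have hclosed : IsClosed K := by
    apply IsClosed.and
    · exact isClosed_eq (by fun_prop) continuous_const
    apply IsClosed.and
    · exact isClosed_eq (by fun_prop) continuous_const
    apply IsClosed.and
    · exact isClosed_eq (by fun_prop) continuous_const
    apply IsClosed.and
    · exact isClosed_eq (by fun_prop) continuous_const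
    apply IsClosed.and
    · exact isClosed_eq (by fun_prop) continuous_const
    · exact isClosed_eq (by fun_prop) continuous_const
  have hbdd : Bornology.IsBounded K := by
    apply (Metric.isBounded_closedBall (x := (0 : V × V)) (r := 1)).subset
    rintro ⟨a, c⟩ ⟨h1, h2, _⟩
    simp only [Metric.mem_closedBall, dist_zero_right]
    rw [Prod.norm_def]
    simp only at h1 h2
    simp [h1, h2]
  have hK : IsCompact K := Metric.isCompact_of_isClosed_isBounded hclosed hbdd
  obtain ⟨⟨u, v⟩, ⟨h1, h2, h3, h4, h5, h6⟩, hmax⟩ := hK.exists_isMaxOn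
    ⟨(x, z), hx, hz, hxz, hxw, hxz, hyz⟩ (cont_sec b R).continuousOn
  refine ⟨u, v, h1, h2, h3, h4, h5, h6, ?_⟩
  intro u' v' a1 a2 a3 a4 a5 a6
  exact hmax (show (u', v') ∈ K from ⟨a1, a2, a3, a4, a5, a6⟩)

/-- a vector orthogonal to two of the four basis vectors -/
theorem expand_two (b : OrthonormalBasis (Fin 2 × Fin 2) ℝ V) (v : V) (i : Fin 2)
    (h0 : ⟪b (i, 0), v⟫ = 0) (h1 : ⟪b (i, 1), v⟫ = 0) :
    v = ⟪b (1 - i, 0), v⟫ • b (1 - i, 0) + ⟪b (1 - i, 1), v⟫ • b (1 - i, 1) := by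
  conv_lhs => rw [← b.sum_repr' v]
  rw [Fintype.sum_prod_type]
  simp only [Fin.sum_univ_two]
  fin_cases i <;> simp_all

theorem gb2_nonneg (R : V →ₗ[ℝ] V →ₗ[ℝ] V →ₗ[ℝ] V →ₗ[ℝ] ℝ) (hR : IsAlgCurv R)
    (hsec : ∀ x y, 0 ≤ R x y x y) (e : OrthonormalBasis (Fin 2 × Fin 2) ℝ V) :
    0 ≤ gbInt 2 R e := by
  obtain ⟨x, y, hx, hy, hxy, hmax⟩ := max_pair e R (e (0,0)) (e (0,1)) (e.orthonormal.1 _)
    (e.orthonormal.1 _) (e.orthonormal.2 (by simp))
  obtain ⟨b, hb0, hb1⟩ := exists_basis_pair 1 e x y hx hy hxy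
  have hyx : ⟪y, x⟫ = 0 := by rw [real_inner_comm]; exact hxy
  have hxx : ⟪x, x⟫ = 1 := inner_one_of _ hx
  have hyy : ⟪y, y⟫ = 1 := inner_one_of _ hy
  -- first order conditions at (x, y)
  have fr : ∀ z : V, ‖z‖ = 1 → ⟪x, z⟫ = 0 → ⟪y, z⟫ = 0 → R x y x z = 0 := by
    intro z hz h1 h2
    apply fo_right R hR.symm
    intro t
    apply hmax _ _ hx (rot_norm y z hy hz h2 t)
    rw [inner_smul_right, inner_add_right, inner_smul_right, hxy, h1]; ring
  have fl : ∀ z : V, ‖z‖ = 1 → ⟪x, z⟫ = 0 → ⟪y, z⟫ = 0 → R x y z y = 0 := by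
    intro z hz h1 h2
    apply fo_left R hR.symm
    intro t
    apply hmax _ _ (rot_norm x z hx hz h1 t) hy
    rw [real_inner_comm, inner_smul_right, inner_add_right, inner_smul_right, hyx, h2]; ring
  have flr : ∀ z : V, ‖z‖ = 1 → ⟪x, z⟫ = 0 → ⟪y, z⟫ = 0 → R x y y z = 0 := by
    intro z hz h1 h2
    rw [hR.antisymm₂, fl z hz h1 h2, neg_zero]
  set z := b (1,0) with hzdef
  set w := b (1,1) with hwdef
  have hz : ‖z‖ = 1 := b.orthonormal.1 _
  have hw : ‖w‖ = 1 := b.orthonormal.1 _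
  have hxz : ⟪x, z⟫ = 0 := by rw [← hb0]; exact b.orthonormal.2 (by simp)
  have hyz : ⟪y, z⟫ = 0 := by rw [← hb1]; exact b.orthonormal.2 (by simp)
  have hxw : ⟪x, w⟫ = 0 := by rw [← hb0]; exact b.orthonormal.2 (by simp)
  have hyw : ⟪y, w⟫ = 0 := by rw [← hb1]; exact b.orthonormal.2 (by simp)
  have hzw : ⟪z, w⟫ = 0 := b.orthonormal.2 (by simp)
  have hwz : ⟪w, z⟫ = 0 := by rw [real_inner_comm]; exact hzw
  have hzx : ⟪z, x⟫ = 0 := by rw [real_inner_comm]; exact hxz
  have hzy : ⟪z, y⟫ = 0 := by rw [real_inner_comm]; exact hyz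
  have hwx : ⟪w, x⟫ = 0 := by rw [real_inner_comm]; exact hxw
  have hwy : ⟪w, y⟫ = 0 := by rw [real_inner_comm]; exact hyw
  have hzz : ⟪z, z⟫ = 1 := inner_one_of _ hz
  have hww : ⟪w, w⟫ = 1 := inner_one_of _ hw
  obtain ⟨u, v, hu, hv, huz, huw, hxv, hyv, hmax2⟩ := max_torus b R x y z w hx hz hxz hyz hxw
  obtain ⟨a, c, hac⟩ : ∃ a c : ℝ, u = a • x + c • y := by
    refine ⟨⟪b (0,0), u⟫, ⟪b (0,1), u⟫, ?_⟩
    have := expand_two b u 1 (by rw [← hzdef, real_inner_comm]; exact huz)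
      (by rw [← hwdef, real_inner_comm]; exact huw)
    simpa [hb0, hb1] using this
  obtain ⟨d, f, hdf⟩ : ∃ d f : ℝ, v = d • z + f • w := by
    refine ⟨⟪b (1,0), v⟫, ⟪b (1,1), v⟫, ?_⟩
    have := expand_two b v 0 (by rw [hb0]; exact hxv) (by rw [hb1]; exact hyv)
    simpa using this
  have hac1 : a^2 + c^2 = 1 := by
    have h : ⟪u, u⟫ = 1 := inner_one_of _ hu
    rw [hac] at h
    simp only [inner_add_left, inner_add_right, inner_smul_left, inner_smul_right, hxx, hyy, hxy,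
      hyx] at h
    simp at h
    linarith
  have hdf1 : d^2 + f^2 = 1 := by
    have h : ⟪v, v⟫ = 1 := inner_one_of _ hv
    rw [hdf] at h
    simp only [inner_add_left, inner_add_right, inner_smul_left, inner_smul_right, hzz, hww, hzw,
      hwz] at h
    simp at h
    linarith
  let u' : V := (-c) • x + a • y
  let v' : V := (-f) • z + d • w
  have hu'u' : ⟪u', u'⟫ = 1 := by
    simp only [u', inner_add_left, inner_add_right, inner_smul_left, inner_smul_right, hxx, hyy, hxy,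
      hyx]
    simp
    linarith
  have hv'v' : ⟪v', v'⟫ = 1 := by
    simp only [v', inner_add_left, inner_add_right, inner_smul_left, inner_smul_right, hzz, hww, hzw,
      hwz]
    simp
    linarith
  have hu' : ‖u'‖ = 1 := norm_one_of u' hu'u'
  have hv' : ‖v'‖ = 1 := norm_one_of v' hv'v'
  have huu : ⟪u, u⟫ = 1 := inner_one_of _ hu
  have hvv : ⟪v, v⟫ = 1 := inner_one_of _ hv
  have huu' : ⟪u, u'⟫ = 0 := by
    rw [hac]
    simp only [u', inner_add_left, inner_add_right, inner_smul_left, inner_smul_right, hxx, hyy, hxy,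
      hyx]
    simp
    ring
  have hvv' : ⟪v, v'⟫ = 0 := by
    rw [hdf]
    simp only [v', inner_add_left, inner_add_right, inner_smul_left, inner_smul_right, hzz, hww, hzw,
      hwz]
    simp
    ring
  have huv : ⟪u, v⟫ = 0 := by
    rw [hdf, inner_add_right, inner_smul_right, inner_smul_right, huz, huw]; ring
  have huv' : ⟪u, v'⟫ = 0 := by
    simp only [v']
    rw [inner_add_right, inner_smul_right, inner_smul_right, huz, huw]; ring
  have hu'z : ⟪u', z⟫ = 0 := by
    simp only [u']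
    rw [inner_add_left, inner_smul_left, inner_smul_left, hxz, hyz]; simp
  have hu'w : ⟪u', w⟫ = 0 := by
    simp only [u']
    rw [inner_add_left, inner_smul_left, inner_smul_left, hxw, hyw]; simp
  have hu'v : ⟪u', v⟫ = 0 := by
    rw [hdf, inner_add_right, inner_smul_right, inner_smul_right, hu'z, hu'w]; ring
  have hu'v' : ⟪u', v'⟫ = 0 := by
    simp only [v']
    rw [inner_add_right, inner_smul_right, inner_smul_right, hu'z, hu'w]; ring
  have hxv' : ⟪x, v'⟫ = 0 := by
    simp only [v']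
    rw [inner_add_right, inner_smul_right, inner_smul_right, hxz, hxw]; ring
  have hyv' : ⟪y, v'⟫ = 0 := by
    simp only [v']
    rw [inner_add_right, inner_smul_right, inner_smul_right, hyz, hyw]; ring
  -- the new basis
  let g : Fin 2 × Fin 2 → V := fun p => ![![u, u'], ![v, v']] p.1 p.2
  have hg : Orthonormal ℝ g := by
    rw [orthonormal_iff_ite]
    have c1 : ⟪u', u⟫ = 0 := by rw [real_inner_comm]; exact huu'
    have c2 : ⟪v', v⟫ = 0 := by rw [real_inner_comm]; exact hvv'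
    have c3 : ⟪v, u⟫ = 0 := by rw [real_inner_comm]; exact huv
    have c4 : ⟪v', u⟫ = 0 := by rw [real_inner_comm]; exact huv'
    have c5 : ⟪v, u'⟫ = 0 := by rw [real_inner_comm]; exact hu'v
    have c6 : ⟪v', u'⟫ = 0 := by rw [real_inner_comm]; exact hu'v'
    rintro ⟨i, j⟩ ⟨k, l⟩
    fin_cases i <;> fin_cases j <;> fin_cases k <;> fin_cases l <;>
      simp [g, huu, hvv, huu', hvv', huv, huv', hu'u', hv'v', hu'v, hu'v', c1, c2, c3, c4, c5, c6,
        hu, hv, hu', hv']
  have hfd : FiniteDimensional ℝ V := b.toBasis.finiteDimensional_of_finite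
  have hcard : Module.finrank ℝ V = Fintype.card (Fin 2 × Fin 2) :=
    Module.finrank_eq_card_basis b.toBasis
  have hg2 : Orthonormal ℝ ((Set.univ : Set (Fin 2 × Fin 2)).domRestrict g) :=
    hg.comp _ Subtype.val_injective
  obtain ⟨b', hb'⟩ := hg2.exists_orthonormalBasis_extension_of_card_eq hcard
  have hb'' : (b' : Fin 2 × Fin 2 → V) = g := by
    funext p; exact hb' p trivial
  rw [gbInt_basis_indep 2 hR.symm e b', hb'']
  have key : ∀ s t, R u u' s t = R x y s t := by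
    intro s t
    have hanti : ∀ s t, R x x s t = 0 := fun s t => by
      have := hR.antisymm₁ x x s t; linarith
    have hanti2 : ∀ s t, R y y s t = 0 := fun s t => by
      have := hR.antisymm₁ y y s t; linarith
    have hyx' := hR.antisymm₁ y x s t
    simp only [hac, u', map_add, map_smul, LinearMap.add_apply, LinearMap.smul_apply, smul_eq_mul]
    rw [hanti, hanti2, hyx']
    have : a * (-c * 0 + a * R x y s t) + c * (-c * (-R x y s t) + a * 0) =
      (a^2 + c^2) * R x y s t := by ring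
    linear_combination this + R x y s t * hac1
  apply gb2_special R hR.antisymm₁ hR.antisymm₂ hR.symm hsec g
  · -- R u u' u v
    change R u u' u v = 0
    rw [key, hac]
    simp only [map_add, map_smul, LinearMap.add_apply, LinearMap.smul_apply, smul_eq_mul]
    rw [fr v hv hxv hyv, flr v hv hxv hyv]; ring
  · change R u u' u v' = 0
    rw [key, hac]
    simp only [map_add, map_smul, LinearMap.add_apply, LinearMap.smul_apply, smul_eq_mul]
    rw [fr v' hv' hxv' hyv', flr v' hv' hxv' hyv']; ring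
  · change R u u' u' v = 0
    rw [key]
    simp only [u', map_add, map_smul, LinearMap.add_apply, LinearMap.smul_apply, smul_eq_mul]
    rw [fr v hv hxv hyv, flr v hv hxv hyv]; ring
  · change R u u' u' v' = 0
    rw [key]
    simp only [u', map_add, map_smul, LinearMap.add_apply, LinearMap.smul_apply, smul_eq_mul]
    rw [fr v' hv' hxv' hyv', flr v' hv' hxv' hyv']; ring
  · change R u v u v' = 0
    apply fo_right R hR.symm
    intro t
    apply hmax2 _ _ hu (rot_norm v v' hv hv' hvv' t) huz huw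
    · rw [inner_smul_right, inner_add_right, inner_smul_right, hxv, hxv']; ring
    · rw [inner_smul_right, inner_add_right, inner_smul_right, hyv, hyv']; ring
  · change R u v u' v = 0
    apply fo_left R hR.symm
    intro t
    apply hmax2 _ _ (rot_norm u u' hu hu' huu' t) hv _ _ hxv hyv
    · rw [inner_smul_left, inner_add_left, inner_smul_left, huz, hu'z]; simp
    · rw [inner_smul_left, inner_add_left, inner_smul_left, huw, hu'w]; simp

end H824GB
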