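import Pool.Agent.H824R2.GB7

set_option autoImplicit false

namespace H824GB

open Finset Submodule

variable {V : Type*} [NormedAddCommGroup V] [InnerProductSpace ℝ V]

open scoped RealInnerProductSpace

/-- pull back of a 4-linear form along a linear map -/
noncomputable def pull {W V : Type*} [NormedAddCommGroup W] [InnerProductSpace ℝ W]
    [NormedAddCommGroup V] [InnerProductSpace ℝ V]
    (L : W →ₗ[ℝ] V) (R : V →ₗ[ℝ] V →ₗ[ℝ] V →ₗ[ℝ] V →ₗ[ℝ] ℝ) :
    W →ₗ[ℝ] W →ₗ[ℝ] W →ₗ[ℝ] W →ₗ[ℝ] ℝ where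
  toFun x :=
    { toFun := fun y =>
        { toFun := fun z =>
            { toFun := fun w => R (L x) (L y) (L z) (L w)
              map_add' := by intro a b; simp
              map_smul' := by intro a b; simp }
          map_add' := by intro a b; ext w; simp
          map_smul' := by intro a b; ext w; simp }
      map_add' := by intro a b; ext z w; simp
      map_smul' := by intro a b; ext z w; simp }
  map_add' := by intro a b; ext y z w; simp
  map_smul' := by intro a b; ext y z w; simp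

@[simp] theorem pull_apply {W V : Type*} [NormedAddCommGroup W] [InnerProductSpace ℝ W]
    [NormedAddCommGroup V] [InnerProductSpace ℝ V]
    (L : W →ₗ[ℝ] V) (R : V →ₗ[ℝ] V →ₗ[ℝ] V →ₗ[ℝ] V →ₗ[ℝ] ℝ) (x y z w : W) :
    pull L R x y z w = R (L x) (L y) (L z) (L w) := rfl

theorem pull_alg {W V : Type*} [NormedAddCommGroup W] [InnerProductSpace ℝ W]
    [NormedAddCommGroup V] [InnerProductSpace ℝ V]
    (L : W →ₗ[ℝ] V) (R : V →ₗ[ℝ] V →ₗ[ℝ] V →ₗ[ℝ] V →ₗ[ℝ] ℝ) (h : IsAlgCurv R) :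
    IsAlgCurv (pull L R) where
  antisymm₁ := fun x y z w => h.antisymm₁ _ _ _ _
  antisymm₂ := fun x y z w => h.antisymm₂ _ _ _ _
  symm := fun x y z w => h.symm _ _ _ _
  bianchi := fun x y z w => h.bianchi _ _ _ _

theorem gbInt_pull {W V : Type*} [NormedAddCommGroup W] [InnerProductSpace ℝ W]
    [NormedAddCommGroup V] [InnerProductSpace ℝ V]
    (m : ℕ) (L : W →ₗ[ℝ] V) (R : V →ₗ[ℝ] V →ₗ[ℝ] V →ₗ[ℝ] V →ₗ[ℝ] ℝ) (e : Fin m × Fin 2 → W) :
    gbInt m (pull L R) e = gbInt m R (fun p => L (e p)) := rfl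

/-- orthonormal family as a basis of its span -/
theorem span_basis {ι : Type*} [Fintype ι] (e : ι → V) (he : Orthonormal ℝ e) :
    ∃ b : OrthonormalBasis ι ℝ (span ℝ (Set.range e)), ∀ p, ((b p : span ℝ (Set.range e)) : V) = e p := by
  classical
  let W := span ℝ (Set.range e)
  let f : ι → W := fun p => ⟨e p, subset_span ⟨p, rfl⟩⟩
  have hf : Orthonormal ℝ f := by
    rw [orthonormal_iff_ite] at he ⊢
    intro i j
    exact he i j
  have hfd : FiniteDimensional ℝ W := FiniteDimensional.span_of_finite ℝ (Set.finite_range e)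
  have hcard : Module.finrank ℝ W = Fintype.card ι :=
    finrank_span_eq_card he.linearIndependent
  have hf2 : Orthonormal ℝ ((Set.univ : Set ι).domRestrict f) :=
    hf.comp _ Subtype.val_injective
  obtain ⟨b, hb⟩ := hf2.exists_orthonormalBasis_extension_of_card_eq hcard
  exact ⟨b, fun p => by rw [hb p trivial]⟩

theorem fam_indep (m : ℕ) (R : V →ₗ[ℝ] V →ₗ[ℝ] V →ₗ[ℝ] V →ₗ[ℝ] ℝ)
    (h3 : ∀ x y z w, R x y z w = R z w x y) (e e' : Fin m × Fin 2 → V)
    (he : Orthonormal ℝ e) (he' : Orthonormal ℝ e') (hsp : ∀ p, e' p ∈ span ℝ (Set.range e)) :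
    gbInt m R e = gbInt m R e' := by
  classical
  obtain ⟨b, hb⟩ := span_basis e he
  let W := span ℝ (Set.range e)
  let f : Fin m × Fin 2 → W := fun p => ⟨e' p, hsp p⟩
  have hf : Orthonormal ℝ f := by
    rw [orthonormal_iff_ite] at he' ⊢
    intro i j
    exact he' i j
  have hcard : Module.finrank ℝ W = Fintype.card (Fin m × Fin 2) :=
    Module.finrank_eq_card_basis b.toBasis
  have hf2 : Orthonormal ℝ ((Set.univ : Set (Fin m × Fin 2)).domRestrict f) :=
    hf.comp _ Subtype.val_injective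
  have hfd : FiniteDimensional ℝ W := b.toBasis.finiteDimensional_of_finite
  obtain ⟨b', hb'⟩ := hf2.exists_orthonormalBasis_extension_of_card_eq hcard
  have h := gbInt_basis_indep m (R := pull W.subtype R) (fun x y z w => h3 _ _ _ _) b b'
  rw [gbInt_pull, gbInt_pull] at h
  have e1 : (fun p => W.subtype (b p)) = e := by funext p; exact hb p
  have e2 : (fun p => W.subtype (b' p)) = e' := by
    funext p
    have := hb' p trivial
    rw [this]
    rfl
  rw [e1, e2] at h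
  exact h

/-- extension of a partial orthonormal family inside the span of an orthonormal family -/
theorem fam_extend {ι : Type*} [Fintype ι] (e : ι → V) (he : Orthonormal ℝ e)
    (s : Set ι) (v : ι → V) (hv : ∀ i ∈ s, v i ∈ span ℝ (Set.range e))
    (hvs : ∀ i ∈ s, ‖v i‖ = 1) (hvo : ∀ i ∈ s, ∀ j ∈ s, i ≠ j → ⟪v i, v j⟫ = 0) :
    ∃ e' : ι → V, Orthonormal ℝ e' ∧ (∀ p, e' p ∈ span ℝ (Set.range e)) ∧ ∀ i ∈ s, e' i = v i := by
  classical
  obtain ⟨b, hb⟩ := span_basis e he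
  let W := span ℝ (Set.range e)
  let f : ι → W := fun p => if h : p ∈ s then ⟨v p, hv p h⟩ else 0
  have hfs : ∀ i ∈ s, ((f i : W) : V) = v i := by
    intro i hi
    simp [f, hi]
  have hcard : Module.finrank ℝ W = Fintype.card ι :=
    Module.finrank_eq_card_basis b.toBasis
  have hf2 : Orthonormal ℝ (s.domRestrict f) := by
    constructor
    · rintro ⟨i, hi⟩
      change ‖((f i : W) : V)‖ = 1
      rw [hfs i hi]; exact hvs i hi
    · rintro ⟨i, hi⟩ ⟨j, hj⟩ hij
      change ⟪((f i : W) : V), ((f j : W) : V)⟫ = 0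
      rw [hfs i hi, hfs j hj]
      exact hvo i hi j hj (fun h => hij (Subtype.ext h))
  have hfd : FiniteDimensional ℝ W := b.toBasis.finiteDimensional_of_finite
  obtain ⟨b', hb'⟩ := hf2.exists_orthonormalBasis_extension_of_card_eq hcard
  refine ⟨fun p => ((b' p : W) : V), ?_, ?_, ?_⟩
  · have := b'.orthonormal
    rw [orthonormal_iff_ite] at this ⊢
    intro i j
    exact this i j
  · intro p
    exact (b' p).2
  · intro i hi
    change ((b' i : W) : V) = v i
    rw [hb' i hi, hfs i hi]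

/-- Gram-Schmidt for two vectors -/
theorem gs_two (x y : V) : (∃ a : ℝ, x = a • y) ∨ (∃ a : ℝ, y = a • x) ∨
    ∃ (x' y' : V) (a b c : ℝ), ‖x'‖ = 1 ∧ ‖y'‖ = 1 ∧ ⟪x', y'⟫ = 0 ∧ x = a • x' ∧ y = b • x' + c • y' ∧
      x' ∈ span ℝ {x, y} ∧ y' ∈ span ℝ {x, y} := by
  by_cases hx : x = 0
  · left; exact ⟨0, by simp [hx]⟩
  right
  have hnx : ‖x‖ ≠ 0 := norm_ne_zero_iff.mpr hx
  let x' : V := ‖x‖⁻¹ • x
  have hx' : ‖x'‖ = 1 := by
    simp only [x', norm_smul, norm_inv, norm_norm]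
    exact inv_mul_cancel₀ hnx
  have hxx' : x = ‖x‖ • x' := by
    simp only [x', smul_smul]
    rw [mul_inv_cancel₀ hnx, one_smul]
  let r : V := y - ⟪x', y⟫ • x'
  by_cases hr : r = 0
  · left
    refine ⟨⟪x', y⟫ * ‖x‖⁻¹, ?_⟩
    have : y = ⟪x', y⟫ • x' := sub_eq_zero.mp hr
    rw [mul_smul]
    exact this
  right
  have hnr : ‖r‖ ≠ 0 := norm_ne_zero_iff.mpr hr
  have hxr : ⟪x', r⟫ = 0 := by
    simp only [r]
    rw [inner_sub_right, inner_smul_right, inner_one_of x' hx']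
    ring
  have hx'm : x' ∈ span ℝ {x, y} := smul_mem _ _ (subset_span (by simp))
  have hrm : r ∈ span ℝ {x, y} :=
    sub_mem (subset_span (by simp)) (smul_mem _ _ hx'm)
  refine ⟨x', ‖r‖⁻¹ • r, ‖x‖, ⟪x', y⟫, ‖r‖, hx', ?_, ?_, hxx', ?_, hx'm, smul_mem _ _ hrm⟩
  · rw [norm_smul, norm_inv, norm_norm]
    exact inv_mul_cancel₀ hnr
  · rw [inner_smul_right, hxr, mul_zero]
  · have e1 : ‖r‖ • ‖r‖⁻¹ • r = r := by rw [smul_smul, mul_inv_cancel₀ hnr, one_smul]
    rw [e1]
    simp only [r]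
    abel

/-- the elementary 2-form `u ∧ v` -/
noncomputable def ph (u v : V) : V →ₗ[ℝ] V →ₗ[ℝ] ℝ :=
  LinearMap.mk₂ ℝ (fun x y => ⟪u, x⟫ * ⟪v, y⟫ - ⟪u, y⟫ * ⟪v, x⟫)
    (by intro a b c; simp only [inner_add_right]; ring)
    (by intro a b c; simp only [inner_smul_right, smul_eq_mul]; ring)
    (by intro a b c; simp only [inner_add_right]; ring)
    (by intro a b c; simp only [inner_smul_right, smul_eq_mul]; ring)

theorem ph_apply (u v x y : V) : ph u v x y = ⟪u, x⟫ * ⟪v, y⟫ - ⟪u, y⟫ * ⟪v, x⟫ := rfl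

/-- the square of the elementary 2-form `u ∧ v`, as a 4-linear form -/
noncomputable def sq (u v : V) : V →ₗ[ℝ] V →ₗ[ℝ] V →ₗ[ℝ] V →ₗ[ℝ] ℝ :=
  LinearMap.mk₂ ℝ (fun x y => ph u v x y • ph u v)
    (by intro a b c; simp [add_smul])
    (by intro a b c; simp [mul_smul])
    (by intro a b c; simp [add_smul])
    (by intro a b c; simp [mul_smul])

theorem sq_apply (u v x y z w : V) : sq u v x y z w =
    (⟪u, x⟫ * ⟪v, y⟫ - ⟪u, y⟫ * ⟪v, x⟫) * (⟪u, z⟫ * ⟪v, w⟫ - ⟪u, w⟫ * ⟪v, z⟫) := rfl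

theorem sq_alg (u v : V) : IsAlgCurv (sq u v) where
  antisymm₁ := fun x y z w => by rw [sq_apply, sq_apply]; ring
  antisymm₂ := fun x y z w => by rw [sq_apply, sq_apply]; ring
  symm := fun x y z w => by rw [sq_apply, sq_apply]; ring
  bianchi := fun x y z w => by rw [sq_apply, sq_apply, sq_apply]; ring

theorem sq_sec (u v x y : V) : 0 ≤ sq u v x y x y := by
  rw [sq_apply]; exact mul_self_nonneg _

end H824GB
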