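import Pool.Agent.H824R2.GB8

set_option autoImplicit false

namespace H824GB

open Finset Submodule

variable {V : Type*} [NormedAddCommGroup V] [InnerProductSpace ℝ V]

open scoped RealInnerProductSpace

/-- sums of squares of decomposable 2-forms -/
inductive DecSOS : (V →ₗ[ℝ] V →ₗ[ℝ] V →ₗ[ℝ] V →ₗ[ℝ] ℝ) → Prop
  | zero : DecSOS 0
  | add_sq (A : V →ₗ[ℝ] V →ₗ[ℝ] V →ₗ[ℝ] V →ₗ[ℝ] ℝ) (u v : V) : DecSOS A → DecSOS (A + sq u v)

theorem DecSOS.sq (u v : V) : DecSOS (sq u v) := by
  have := DecSOS.add_sq 0 u v DecSOS.zero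
  rwa [zero_add] at this

theorem DecSOS.add {A B : V →ₗ[ℝ] V →ₗ[ℝ] V →ₗ[ℝ] V →ₗ[ℝ] ℝ} (hA : DecSOS A) (hB : DecSOS B) :
    DecSOS (A + B) := by
  induction hB with
  | zero => rwa [add_zero]
  | add_sq B u v _ ih => rw [← add_assoc]; exact DecSOS.add_sq _ u v ih

theorem DecSOS.sum {ι : Type*} (s : Finset ι) (A : ι → (V →ₗ[ℝ] V →ₗ[ℝ] V →ₗ[ℝ] V →ₗ[ℝ] ℝ))
    (h : ∀ i ∈ s, DecSOS (A i)) : DecSOS (∑ i ∈ s, A i) := by
  classical
  induction s using Finset.induction_on with
  | empty => rw [Finset.sum_empty]; exact DecSOS.zero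
  | insert a s ha ih =>
    rw [Finset.sum_insert ha]
    exact DecSOS.add (h a (Finset.mem_insert_self a s))
      (ih (fun i hi => h i (Finset.mem_insert_of_mem hi)))

theorem smul_sq (c : ℝ) (hc : 0 ≤ c) (u v : V) : c • sq u v = sq (Real.sqrt c • u) v := by
  ext x y z w
  simp only [LinearMap.smul_apply, smul_eq_mul, sq_apply, inner_smul_left, conj_trivial]
  have := Real.mul_self_sqrt hc
  linear_combination -(⟪u, x⟫ * ⟪v, y⟫ - ⟪u, y⟫ * ⟪v, x⟫) * (⟪u, z⟫ * ⟪v, w⟫ - ⟪u, w⟫ * ⟪v, z⟫) * this

theorem DecSOS.smul {A : V →ₗ[ℝ] V →ₗ[ℝ] V →ₗ[ℝ] V →ₗ[ℝ] ℝ} (hA : DecSOS A) (c : ℝ) (hc : 0 ≤ c) :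
    DecSOS (c • A) := by
  induction hA with
  | zero => rw [smul_zero]; exact DecSOS.zero
  | add_sq B u v _ ih => rw [smul_add, smul_sq c hc]; exact DecSOS.add_sq _ _ v ih

/-- curvature tensors with nonnegative sectional curvature and nullity of codimension at most 5 -/
def Small (R : V →ₗ[ℝ] V →ₗ[ℝ] V →ₗ[ℝ] V →ₗ[ℝ] ℝ) : Prop :=
  IsAlgCurv R ∧ (∀ x y, 0 ≤ R x y x y) ∧
    ∃ N : Submodule ℝ V, Module.finrank ℝ V ≤ Module.finrank ℝ N + 5 ∧ ∀ x ∈ N, R x = 0

theorem gbInt_zero' (R : V →ₗ[ℝ] V →ₗ[ℝ] V →ₗ[ℝ] V →ₗ[ℝ] ℝ) (e : Fin 0 × Fin 2 → V) :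
    gbInt 0 R e = 1 := by
  simp [gbInt]

theorem perm_fin1 : (Finset.univ : Finset (Equiv.Perm (Fin 1 × Fin 2))) =
    {1, Equiv.swap (0,0) (0,1)} := by decide

theorem gbInt_one (R : V →ₗ[ℝ] V →ₗ[ℝ] V →ₗ[ℝ] V →ₗ[ℝ] ℝ) (hR : IsAlgCurv R)
    (e : Fin 1 × Fin 2 → V) :
    gbInt 1 R e = 4 * R (e (0,0)) (e (0,1)) (e (0,0)) (e (0,1)) := by
  have hne : (1 : Equiv.Perm (Fin 1 × Fin 2)) ≠ Equiv.swap (0,0) (0,1) := by decide
  have hs : Equiv.Perm.sign (Equiv.swap ((0,0) : Fin 1 × Fin 2) (0,1)) = -1 :=
    Equiv.Perm.sign_swap (by decide)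
  unfold gbInt
  rw [perm_fin1, Finset.sum_pair hne, Finset.sum_pair hne, Finset.sum_pair hne]
  simp only [Finset.univ_unique, Finset.prod_singleton, Fin.default_eq_zero, hs,
    Equiv.Perm.sign_one, Equiv.Perm.one_apply, Equiv.swap_apply_left, Equiv.swap_apply_right]
  have h1 := hR.antisymm₁ (e (0,1)) (e (0,0)) (e (0,0)) (e (0,1))
  have h2 := hR.antisymm₁ (e (0,1)) (e (0,0)) (e (0,1)) (e (0,0))
  have h3 := hR.antisymm₂ (e (0,0)) (e (0,1)) (e (0,1)) (e (0,0))
  rw [h1, h2, h3]
  push_cast
  ring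

theorem base_case [FiniteDimensional ℝ V] (R : V →ₗ[ℝ] V →ₗ[ℝ] V →ₗ[ℝ] V →ₗ[ℝ] ℝ) (hR : Small R)
    (m : ℕ) (e : Fin m × Fin 2 → V) (he : Orthonormal ℝ e) : 0 ≤ gbInt m R e := by
  classical
  obtain ⟨hR1, hsec, N, hN, hnull⟩ := hR
  match m, e, he with
  | 0, e, he => rw [gbInt_zero']; norm_num
  | 1, e, he => rw [gbInt_one R hR1]; have := hsec (e (0,0)) (e (0,1)); linarith
  | 2, e, he =>
    obtain ⟨b, hb⟩ := span_basis e he
    let W := span ℝ (Set.range e)
    have h := gb2_nonneg (pull W.subtype R) (pull_alg _ R hR1) (fun x y => hsec _ _) b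
    rw [gbInt_pull] at h
    have e1 : (fun p => W.subtype (b p)) = e := by funext p; exact hb p
    rwa [e1] at h
  | (n+3), e, he =>
    let W := span ℝ (Set.range e)
    have hcard : Module.finrank ℝ W = Fintype.card (Fin (n+3) × Fin 2) :=
      finrank_span_eq_card he.linearIndependent
    have hc : Fintype.card (Fin (n+3) × Fin 2) = 2 * n + 6 := by
      simp [Fintype.card_prod]; ring
    have hdim := Submodule.finrank_sup_add_finrank_inf_eq W N
    have hle := Submodule.finrank_le (W ⊔ N)
    have hpos : 0 < Module.finrank ℝ (W ⊓ N : Submodule ℝ V) := by omega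
    have hne : (W ⊓ N : Submodule ℝ V) ≠ ⊥ := by
      intro h
      rw [h, finrank_bot] at hpos
      exact lt_irrefl _ hpos
    obtain ⟨x, hx, hx0⟩ := Submodule.exists_mem_ne_zero_of_ne_bot hne
    have hnx : ‖x‖ ≠ 0 := norm_ne_zero_iff.mpr hx0
    let x' : V := ‖x‖⁻¹ • x
    have hx' : ‖x'‖ = 1 := by
      simp only [x', norm_smul, norm_inv, norm_norm]
      exact inv_mul_cancel₀ hnx
    have hx'W : x' ∈ W := smul_mem _ _ hx.1
    have hx'N : x' ∈ N := smul_mem _ _ hx.2
    obtain ⟨e', he', hsp, hv⟩ := fam_extend e he {((0,0) : Fin (n+3) × Fin 2)} (fun _ => x')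
      (fun _ _ => hx'W) (fun _ _ => hx') (by
        intro i hi j hj hij
        simp only [Set.mem_singleton_iff] at hi hj
        exact absurd (hi.trans hj.symm) hij)
    have h0 : e' (0,0) = x' := hv _ rfl
    rw [fam_indep _ R hR1.symm e e' he he' hsp]
    have : gbInt (n+3) R e' = 0 := by
      unfold gbInt
      apply Finset.sum_eq_zero; intro σ _
      apply Finset.sum_eq_zero; intro τ _
      apply mul_eq_zero_of_right
      obtain ⟨⟨i, j⟩, hp⟩ := σ.surjective ((0,0) : Fin (n+3) × Fin 2)
      apply Finset.prod_eq_zero (Finset.mem_univ i)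
      have hz : R x' = 0 := hnull x' hx'N
      fin_cases j
      · have hp' : σ (i, 0) = (0,0) := hp
        rw [hp', h0, hz]; rfl
      · have hp' : σ (i, 1) = (0,0) := hp
        rw [hp', h0, hR1.antisymm₁, hz]; simp
    rw [this]

theorem proj_inner {ι : Type*} [Fintype ι] (e : ι → V) (he : Orthonormal ℝ e) (u z : V)
    (hz : z ∈ span ℝ (Set.range e)) : ⟪∑ p, ⟪e p, u⟫ • e p, z⟫ = ⟪u, z⟫ := by
  classical
  induction hz using span_induction with
  | mem x h =>
    obtain ⟨q, rfl⟩ := h
    rw [sum_inner]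
    simp only [inner_smul_left, orthonormal_iff_ite.mp he, conj_trivial]
    simp [real_inner_comm]
  | zero => simp
  | add x y _ _ hx hy => rw [inner_add_right, inner_add_right, hx, hy]
  | smul a x _ hx => rw [inner_smul_right, inner_smul_right, hx]

theorem main_nonneg [FiniteDimensional ℝ V] (A : V →ₗ[ℝ] V →ₗ[ℝ] V →ₗ[ℝ] V →ₗ[ℝ] ℝ)
    (hA : DecSOS A) (R : V →ₗ[ℝ] V →ₗ[ℝ] V →ₗ[ℝ] V →ₗ[ℝ] ℝ) (hR : Small R) :
    ∀ (m : ℕ) (e : Fin m × Fin 2 → V), Orthonormal ℝ e → 0 ≤ gbInt m (A + R) e := by
  classical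
  induction hA with
  | zero => intro m e he; rw [zero_add]; exact base_case R hR m e he
  | add_sq A u v hA' ih =>
    intro m e he
    match m, e, he with
    | 0, e, he => rw [gbInt_zero']; norm_num
    | (m+1), e, he =>
      have hAsym : ∀ A : V →ₗ[ℝ] V →ₗ[ℝ] V →ₗ[ℝ] V →ₗ[ℝ] ℝ, DecSOS A →
          ∀ x y z w, A x y z w = A z w x y := by
        intro A hA
        induction hA with
        | zero => intros; simp
        | add_sq B u v _ ih =>
          intro x y z w
          simp only [LinearMap.add_apply]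
          rw [ih x y z w, (sq_alg u v).symm x y z w]
      have hsymm : ∀ x y z w, (A + sq u v + R) x y z w = (A + sq u v + R) z w x y := by
        intro x y z w
        simp only [LinearMap.add_apply]
        rw [hAsym A hA' x y z w, (sq_alg u v).symm x y z w, hR.1.symm x y z w]
      let W := span ℝ (Set.range e)
      let Pu : V := ∑ p, ⟪e p, u⟫ • e p
      let Pv : V := ∑ p, ⟪e p, v⟫ • e p
      have hPu : ∀ z ∈ W, ⟪u, z⟫ = ⟪Pu, z⟫ := fun z hz => (proj_inner e he u z hz).symm
      have hPv : ∀ z ∈ W, ⟪v, z⟫ = ⟪Pv, z⟫ := fun z hz => (proj_inner e he v z hz).symm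
      have hPuW : Pu ∈ W := sum_mem (fun p _ => smul_mem _ _ (subset_span ⟨p, rfl⟩))
      have hPvW : Pv ∈ W := sum_mem (fun p _ => smul_mem _ _ (subset_span ⟨p, rfl⟩))
      have hdeg : (∀ z ∈ W, ∀ w ∈ W, ⟪u, z⟫ * ⟪v, w⟫ - ⟪u, w⟫ * ⟪v, z⟫ = 0) →
          0 ≤ gbInt (m+1) (A + sq u v + R) e := by
        intro h
        have : gbInt (m+1) (A + sq u v + R) e = gbInt (m+1) (A + R) e := by
          unfold gbInt
          apply Finset.sum_congr rfl; intro σ _
          apply Finset.sum_congr rfl; intro τ _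
          congr 1
          apply Finset.prod_congr rfl; intro i _
          simp only [LinearMap.add_apply, sq_apply]
          rw [h _ (subset_span ⟨_, rfl⟩) _ (subset_span ⟨_, rfl⟩)]
          ring
        rw [this]
        exact ih (m+1) e he
      rcases gs_two Pu Pv with ⟨a, ha⟩ | ⟨a, ha⟩ | ⟨x', y', a, b, c, hx', hy', hxy', hu, hv, hxm, hym⟩
      · apply hdeg
        intro z hz w hw
        rw [hPu z hz, hPu w hw, hPv z hz, hPv w hw, ha, inner_smul_left, inner_smul_left]
        simp; ring
      · apply hdeg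
        intro z hz w hw
        rw [hPu z hz, hPu w hw, hPv z hz, hPv w hw, ha, inner_smul_left, inner_smul_left]
        simp; ring
      · have hspW : span ℝ {Pu, Pv} ≤ W := by
          rw [span_le]
          intro z hz
          rcases hz with rfl | hz
          · exact hPuW
          · rw [Set.mem_singleton_iff] at hz; rw [hz]; exact hPvW
        have hx'W : x' ∈ W := hspW hxm
        have hy'W : y' ∈ W := hspW hym
        have hyx' : ⟪y', x'⟫ = 0 := by rw [real_inner_comm]; exact hxy'
        obtain ⟨e', he', hsp, hev⟩ := fam_extend e he {((0,0) : Fin (m+1) × Fin 2), (0,1)}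
          (fun p => if p = (0,0) then x' else y')
          (by
            intro i _
            split_ifs
            · exact hx'W
            · exact hy'W)
          (by
            intro i _
            split_ifs
            · exact hx'
            · exact hy')
          (by
            intro i hi j hj hij
            simp only [Set.mem_insert_iff, Set.mem_singleton_iff] at hi hj
            rcases hi with rfl | rfl <;> rcases hj with rfl | rfl
            · exact absurd rfl hij
            · simp [hxy']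
            · simp [hyx']
            · exact absurd rfl hij)
        have h0 : e' (0,0) = x' := by rw [hev _ (by simp)]; simp
        have h1 : e' (0,1) = y' := by rw [hev _ (by simp)]; simp
        rw [fam_indep _ _ hsymm e e' he he' hsp]
        have hon := orthonormal_iff_ite.mp he'
        have hph : ∀ p q, ⟪u, e' p⟫ * ⟪v, e' q⟫ - ⟪u, e' q⟫ * ⟪v, e' p⟫ = (a * c) * om m p q := by
          intro p q
          rw [hPu _ (hsp p), hPu _ (hsp q), hPv _ (hsp p), hPv _ (hsp q), hu, hv]
          simp only [inner_add_left, inner_smul_left, conj_trivial]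
          rw [← h0, ← h1, hon, hon, hon, hon]
          unfold om
          have hne : ((0,1) : Fin (m+1) × Fin 2) ≠ (0,0) := by simp
          by_cases hp0 : (0,0) = p
          · subst hp0
            by_cases hq0 : (0,0) = q
            · subst hq0; simp
            · by_cases hq1 : (0,1) = q
              · subst hq1; simp
              · have hq0' : ¬ q = (0,0) := fun h => hq0 h.symm
                have hq1' : ¬ q = (0,1) := fun h => hq1 h.symm
                simp [hq0, hq1, hq0', hq1']
          · have hp0' : ¬ p = (0,0) := fun h => hp0 h.symm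
            by_cases hp1 : (0,1) = p
            · subst hp1
              by_cases hq0 : (0,0) = q
              · subst hq0; simp
              · have hq0' : ¬ q = (0,0) := fun h => hq0 h.symm
                simp [hq0, hq0']
            · have hp1' : ¬ p = (0,1) := fun h => hp1 h.symm
              simp [hp0, hp1, hp0', hp1']
        have hadd := gb_add m (A + sq u v + R) (A + R) e' ((a * c) * (a * c)) (by
          intro p q r s
          simp only [LinearMap.add_apply, sq_apply]
          rw [hph, hph]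
          ring)
        rw [hadd]
        have i1 := ih (m+1) e' he'
        have i2 := ih m (fun p => e' (p.1.succ, p.2)) (by
          apply he'.comp
          intro p q hpq
          simp only [Prod.mk.injEq, Fin.succ_inj] at hpq
          exact Prod.ext hpq.1 hpq.2)
        have i3 : 0 ≤ 4 * ((m : ℝ) + 1) * ((a * c) * (a * c)) := by
          have := mul_self_nonneg (a * c)
          positivity
        have i4 := mul_nonneg i3 i2
        linarith

theorem main_strict [FiniteDimensional ℝ V] (R : V →ₗ[ℝ] V →ₗ[ℝ] V →ₗ[ℝ] V →ₗ[ℝ] ℝ) (hR : Small R)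
    (δ : ℝ) (hδ : 0 < δ) :
    ∀ (m : ℕ) (A : V →ₗ[ℝ] V →ₗ[ℝ] V →ₗ[ℝ] V →ₗ[ℝ] ℝ), DecSOS A →
      ∀ (e : Fin m × Fin 2 → V), Orthonormal ℝ e →
      0 < gbInt m (A + (δ • ∑ i : Fin m, sq (e (i, 0)) (e (i, 1))) + R) e := by
  classical
  intro m
  induction m with
  | zero => intro A hA e he; rw [gbInt_zero']; norm_num
  | succ m ih =>
    intro A hA e he
    have hon := orthonormal_iff_ite.mp he
    let B : V →ₗ[ℝ] V →ₗ[ℝ] V →ₗ[ℝ] V →ₗ[ℝ] ℝ :=
      δ • ∑ i : Fin m, sq (e (i.succ, 0)) (e (i.succ, 1))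
    have hB : DecSOS B := DecSOS.smul (DecSOS.sum _ _ (fun i _ => DecSOS.sq _ _)) δ hδ.le
    have hadd := gb_add m (A + (δ • ∑ i : Fin (m+1), sq (e (i, 0)) (e (i, 1))) + R)
      (A + B + R) e δ (by
        intro p q r s
        rw [Fin.sum_univ_succ]
        simp only [B, LinearMap.add_apply, LinearMap.smul_apply, smul_eq_mul, smul_add]
        have : sq (e (0,0)) (e (0,1)) (e p) (e q) (e r) (e s) = om m p q * om m r s := by
          have hph : ∀ p q, ⟪e (0,0), e p⟫ * ⟪e (0,1), e q⟫ - ⟪e (0,0), e q⟫ * ⟪e (0,1), e p⟫ =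
              om m p q := by
            intro p q
            rw [hon, hon, hon, hon]
            unfold om
            have hne : ((0,1) : Fin (m+1) × Fin 2) ≠ (0,0) := by simp
            by_cases hp0 : (0,0) = p
            · subst hp0
              by_cases hq0 : (0,0) = q
              · subst hq0; simp
              · by_cases hq1 : (0,1) = q
                · subst hq1; simp
                · have hq0' : ¬ q = (0,0) := fun h => hq0 h.symm
                  have hq1' : ¬ q = (0,1) := fun h => hq1 h.symm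
                  simp [hq0, hq1, hq0', hq1']
            · have hp0' : ¬ p = (0,0) := fun h => hp0 h.symm
              by_cases hp1 : (0,1) = p
              · subst hp1
                by_cases hq0 : (0,0) = q
                · subst hq0; simp
                · have hq0' : ¬ q = (0,0) := fun h => hq0 h.symm
                  simp [hq0, hq0']
              · have hp1' : ¬ p = (0,1) := fun h => hp1 h.symm
                simp [hp0, hp1, hp0', hp1']
          rw [sq_apply, hph, hph]
        rw [this]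
        ring)
    rw [hadd]
    have i1 := main_nonneg (A + B) (hA.add hB) R hR (m+1) e he
    have i2 := ih A hA (fun p => e (p.1.succ, p.2)) (by
          apply he.comp
          intro p q hpq
          simp only [Prod.mk.injEq, Fin.succ_inj] at hpq
          exact Prod.ext hpq.1 hpq.2)
    have i2' : 0 < gbInt m (A + B + R) (fun p => e (p.1.succ, p.2)) := i2
    have i4 : 0 < 4 * ((m : ℝ) + 1) * δ * gbInt m (A + B + R) (fun p => e (p.1.succ, p.2)) := by
      positivity
    linarith

end H824GB
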